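import Mathlib

/-!
# Counting pairs, alternating sets of edges, the closing lemma
-/

namespace Pool.Agent.H66.GD

open Finset
open scoped Classical

variable {V : Type*}

/-- The number of pairs in `A × B` that are related by `E`. -/
noncomputable def ct (E : V → V → Prop) (A B : Finset V) : ℕ :=
  ∑ a ∈ A, ∑ b ∈ B, if E a b then 1 else 0

theorem ct_comm {E : V → V → Prop} (hs : ∀ u v, E u v → E v u) (A B : Finset V) :
    ct E A B = ct E B A := by
  unfold ct
  rw [sum_comm]
  refine sum_congr rfl fun b _ => sum_congr rfl fun a _ => ?_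
  by_cases h : E a b
  · rw [if_pos h, if_pos (hs _ _ h)]
  · rw [if_neg h, if_neg fun h' => h (hs _ _ h')]

theorem ct_union_left {E : V → V → Prop} {A A' : Finset V} (h : Disjoint A A') (B : Finset V) :
    ct E (A ∪ A') B = ct E A B + ct E A' B := sum_union h

theorem ct_union_right {E : V → V → Prop} {B B' : Finset V} (A : Finset V) (h : Disjoint B B') :
    ct E A (B ∪ B') = ct E A B + ct E A B' := by
  unfold ct
  rw [← sum_add_distrib]
  exact sum_congr rfl fun a _ => sum_union h

theorem ct_mono {E E' : V → V → Prop} {A A' B B' : Finset V} (hA : A ⊆ A') (hB : B ⊆ B')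
    (h : ∀ a ∈ A, ∀ b ∈ B, E a b → E' a b) : ct E A B ≤ ct E' A' B' := by
  unfold ct
  calc ∑ a ∈ A, ∑ b ∈ B, (if E a b then 1 else 0)
      ≤ ∑ a ∈ A, ∑ b ∈ B, (if E' a b then 1 else 0) := by
        refine sum_le_sum fun a ha => sum_le_sum fun b hb => ?_
        by_cases h1 : E a b
        · rw [if_pos h1, if_pos (h a ha b hb h1)]
        · rw [if_neg h1]; exact Nat.zero_le _
    _ ≤ ∑ a ∈ A, ∑ b ∈ B', (if E' a b then 1 else 0) :=
        sum_le_sum fun a _ => sum_le_sum_of_subset hB
    _ ≤ ∑ a ∈ A', ∑ b ∈ B', (if E' a b then 1 else 0) := sum_le_sum_of_subset hA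

theorem ct_eq_zero {E : V → V → Prop} {A B : Finset V} :
    ct E A B = 0 ↔ ∀ a ∈ A, ∀ b ∈ B, ¬ E a b := by
  unfold ct
  simp [sum_eq_zero_iff]

theorem ct_pos {E : V → V → Prop} {A B : Finset V} :
    1 ≤ ct E A B ↔ ∃ a ∈ A, ∃ b ∈ B, E a b := by
  rw [Nat.one_le_iff_ne_zero, Ne, ct_eq_zero]
  push Not
  rfl

theorem ct_eq_card (E : V → V → Prop) (A B : Finset V) :
    ct E A B = ((A ×ˢ B).filter fun p => E p.1 p.2).card := by
  unfold ct
  rw [card_filter, sum_product]

theorem two_le_ct {E : V → V → Prop} {A B : Finset V} {a b a' b' : V} (ha : a ∈ A) (hb : b ∈ B)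
    (h : E a b) (ha' : a' ∈ A) (hb' : b' ∈ B) (h' : E a' b') (hne : (a, b) ≠ (a', b')) :
    2 ≤ ct E A B := by
  rw [ct_eq_card]
  have h1 : ({(a, b), (a', b')} : Finset (V × V)) ⊆ (A ×ˢ B).filter fun p => E p.1 p.2 := by
    intro p hp
    simp only [mem_insert, mem_singleton] at hp
    rw [mem_filter, mem_product]
    rcases hp with rfl | rfl
    · exact ⟨⟨ha, hb⟩, h⟩
    · exact ⟨⟨ha', hb'⟩, h'⟩
  calc 2 = ({(a, b), (a', b')} : Finset (V × V)).card := (card_pair hne).symm
    _ ≤ _ := card_le_card h1

theorem ct_le_one {E : V → V → Prop} {A B : Finset V} (h : ct E A B ≤ 1) {a b a' b' : V}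
    (ha : a ∈ A) (hb : b ∈ B) (h1 : E a b) (ha' : a' ∈ A) (hb' : b' ∈ B) (h2 : E a' b') :
    a = a' ∧ b = b' := by
  by_contra hc
  have := two_le_ct ha hb h1 ha' hb' h2 (fun he => hc (Prod.mk.inj he))
  omega

theorem ct_even {E : V → V → Prop} (hs : ∀ u v, E u v → E v u) (hi : ∀ v, ¬ E v v)
    (A : Finset V) : Even (ct E A A) := by
  induction A using Finset.induction_on with
  | empty => simp [ct]
  | insert x A hx ih =>
    have h1 : insert x A = {x} ∪ A := rfl
    have hd : Disjoint {x} A := by simpa using hx
    rw [h1, ct_union_left hd, ct_union_right _ hd, ct_union_right _ hd, ct_comm hs A {x}]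
    have h2 : ct E {x} {x} = 0 := by
      rw [ct_eq_zero]
      intro a ha b hb
      rw [mem_singleton] at ha hb
      subst ha; subst hb
      exact hi _
    rw [h2]
    obtain ⟨k, hk⟩ := ih
    exact ⟨k + ct E {x} A, by omega⟩

theorem ct_split {E E' : V → V → Prop} (A B : Finset V) :
    ct E A B = ct (fun u v => E u v ∧ ¬ E' u v) A B + ct (fun u v => E u v ∧ E' u v) A B := by
  unfold ct
  rw [← sum_add_distrib]
  refine sum_congr rfl fun a _ => ?_
  rw [← sum_add_distrib]
  refine sum_congr rfl fun b _ => ?_
  by_cases h1 : E a b <;> by_cases h2 : E' a b <;> simp [h1, h2]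

theorem ct_or {E E' : V → V → Prop} (A B : Finset V)
    (hd : ∀ a ∈ A, ∀ b ∈ B, ¬ (E a b ∧ E' a b)) :
    ct (fun u v => E u v ∨ E' u v) A B = ct E A B + ct E' A B := by
  unfold ct
  rw [← sum_add_distrib]
  refine sum_congr rfl fun a ha => ?_
  rw [← sum_add_distrib]
  refine sum_congr rfl fun b hb => ?_
  have := hd a ha b hb
  by_cases h1 : E a b <;> by_cases h2 : E' a b <;> simp_all

theorem even_card_of_inv {f : V → V} (hf : ∀ v, f (f v) = v) (hn : ∀ v, f v ≠ v) (S : Finset V)
    (hS : ∀ s ∈ S, f s ∈ S) : Even S.card := by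
  have h : (∑ s ∈ S, (1 : ZMod 2)) = 0 := by
    refine sum_involution (fun a _ => f a) ?_ ?_ ?_ ?_
    · intro a _; decide
    · intro a _ _; exact hn a
    · intro a ha; exact hS a ha
    · intro a _; exact hf a
  rw [sum_const, nsmul_eq_mul, mul_one] at h
  rw [even_iff_two_dvd]
  exact (ZMod.natCast_eq_zero_iff _ _).1 h

/-! ### Alternating sets -/

/-- `N` is a nonempty set of `E`-edges whose union with the edges `u -- f u` at its support
consists of disjoint circuits. -/
structure Alt (E : V → V → Prop) (f : V → V) (N : V → V → Prop) : Prop where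
  symm : ∀ u v, N u v → N v u
  sub : ∀ u v, N u v → E u v
  uniq : ∀ u v w, N u v → N u w → v = w
  clos : ∀ u v, N u v → ∃ w, N (f u) w
  ne : ∃ u v, N u v

/-- The edges `f (x l) -- x (l + 1)` for `s ≤ l < t`. -/
def seg (f : V → V) (x : ℕ → V) (s t : ℕ) (u v : V) : Prop :=
  ∃ l, s ≤ l ∧ l < t ∧ ((u = f (x l) ∧ v = x (l + 1)) ∨ (v = f (x l) ∧ u = x (l + 1)))

theorem seg_symm {f : V → V} {x : ℕ → V} {s t : ℕ} (u v : V) (h : seg f x s t u v) :
    seg f x s t v u := by
  obtain ⟨l, h1, h2, h3⟩ := h
  exact ⟨l, h1, h2, h3.symm⟩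

theorem seg_uniq {f : V → V} {x : ℕ → V} {s t : ℕ}
    (h1 : ∀ i j, s ≤ i → i < t → s ≤ j → j < t → f (x i) = f (x j) → i = j)
    (h2 : ∀ i j, s ≤ i → i < t → s ≤ j → j < t → x (i + 1) = x (j + 1) → i = j)
    (h3 : ∀ i j, s ≤ i → i < t → s ≤ j → j < t → f (x i) ≠ x (j + 1))
    (u v w : V) (h : seg f x s t u v) (h' : seg f x s t u w) : v = w := by
  obtain ⟨l, a1, a2, a3⟩ := h
  obtain ⟨k, b1, b2, b3⟩ := h'
  rcases a3 with ⟨rfl, rfl⟩ | ⟨rfl, rfl⟩
  · rcases b3 with ⟨c, rfl⟩ | ⟨rfl, c⟩
    · rw [h1 l k a1 a2 b1 b2 c]
    · exact absurd c (h3 l k a1 a2 b1 b2)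
  · rcases b3 with ⟨c, rfl⟩ | ⟨rfl, c⟩
    · exact absurd c.symm (h3 k l b1 b2 a1 a2)
    · rw [h2 l k a1 a2 b1 b2 c]

/-- A blossom: an odd circuit `f x₀, x₁, f x₁, …, x_m, f x_m`. -/
structure Blo (E : V → V → Prop) (f : V → V) (X : Finset V) (m : ℕ) (x : ℕ → V) : Prop where
  pos : 1 ≤ m
  mem : ∀ k ≤ m, x k ∈ X
  edge : ∀ k < m, E (f (x k)) (x (k + 1))
  last : E (f (x m)) (f (x 0))
  inj : ∀ i ≤ m, ∀ j ≤ m, x i = x j → i = j
  ne : ∀ i ≤ m, ∀ j ≤ m, x i ≠ f (x j)

variable [Fintype V]

theorem closing {E : V → V → Prop} {f : V → V} (hs : ∀ u v, E u v → E v u) (hi : ∀ v, ¬ E v v)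
    (hf : ∀ v, f (f v) = v) (hn : ∀ v, f v ≠ v) (X : Finset V) (s : V) (hsX : s ∈ X)
    (hstep : ∀ a ∈ X, ∃ z, E (f a) z ∧ (z ∈ X ∨ z = f s))
    (hno : ¬ ∃ N, Alt E f N) : ∃ m x, Blo E f X m x := by
  by_contra hcon
  have key : ∀ m : ℕ, ∃ x : ℕ → V, x 0 = s ∧ (∀ k ≤ m, x k ∈ X) ∧
      (∀ k < m, E (f (x k)) (x (k + 1))) ∧ (∀ i ≤ m, ∀ j ≤ m, x i = x j → i = j) ∧
      (∀ i ≤ m, ∀ j ≤ m, x i ≠ f (x j)) := by
    intro m
    induction m with
    | zero =>
      refine ⟨fun _ => s, rfl, fun _ _ => hsX, fun k hk => absurd hk (by omega), ?_, ?_⟩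
      · intro i hi' j hj _; omega
      · intro i _ j _ h; exact hn s h.symm
    | succ m ih =>
      obtain ⟨x, h0, h1, h2, h3, h4⟩ := ih
      obtain ⟨z, hz, hz'⟩ := hstep (x m) (h1 m le_rfl)
      by_cases hA : ∃ i ≤ m, z = x i
      · exfalso
        obtain ⟨i, him, rfl⟩ := hA
        -- an alternating circuit
        set y : ℕ → V := fun k => if k ≤ m then x k else x i with hy
        have hy1 : ∀ k ≤ m, y k = x k := fun k hk => by rw [hy]; simp [hk]
        have hy2 : y (m + 1) = x i := by rw [hy]; simp
        apply hno
        refine ⟨seg f y i (m + 1), seg_symm, ?_, ?_, ?_, ?_⟩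
        · intro u v ⟨l, a1, a2, a3⟩
          have hE : E (f (y l)) (y (l + 1)) := by
            rw [hy1 l (by omega)]
            rcases Nat.lt_or_ge l m with h | h
            · rw [hy1 (l + 1) (by omega)]
              exact h2 l h
            · have : l = m := by omega
              subst this
              rw [hy2]; exact hz
          rcases a3 with ⟨rfl, rfl⟩ | ⟨rfl, rfl⟩
          · exact hE
          · exact hs _ _ hE
        · have hfi : ∀ a b, f a = f b → a = b := fun a b h => by rw [← hf a, h, hf]
          refine seg_uniq ?_ ?_ ?_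
          · intro a b _ ha _ hb hab
            rw [hy1 a (by omega), hy1 b (by omega)] at hab
            exact h3 a (by omega) b (by omega) (hfi _ _ hab)
          · intro a b ha' ha hb' hb hab
            rcases Nat.lt_or_ge a m with ham | ham
            · rcases Nat.lt_or_ge b m with hbm | hbm
              · rw [hy1 (a + 1) (by omega), hy1 (b + 1) (by omega)] at hab
                have := h3 (a + 1) (by omega) (b + 1) (by omega) hab
                omega
              · have : b = m := by omega
                subst this
                rw [hy1 (a + 1) (by omega), hy2] at hab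
                have := h3 (a + 1) (by omega) i him hab
                omega
            · have : a = m := by omega
              subst this
              rcases Nat.lt_or_ge b a with hbm | hbm
              · rw [hy1 (b + 1) (by omega), hy2] at hab
                have := h3 i him (b + 1) (by omega) hab
                omega
              · omega
          · intro a b _ ha hb' hb hab
            rw [hy1 a (by omega)] at hab
            rcases Nat.lt_or_ge b m with hbm | hbm
            · rw [hy1 (b + 1) (by omega)] at hab
              exact h4 (b + 1) (by omega) a (by omega) hab.symm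
            · have : b = m := by omega
              subst this
              rw [hy2] at hab
              exact h4 i him a (by omega) hab.symm
        · intro u v ⟨l, a1, a2, a3⟩
          rcases a3 with ⟨rfl, rfl⟩ | ⟨rfl, rfl⟩
          · -- u = f (y l), f u = y l
            rw [hf]
            rcases Nat.lt_or_ge i l with h | h
            · refine ⟨f (y (l - 1)), l - 1, by omega, by omega, Or.inr ⟨rfl, ?_⟩⟩
              rw [Nat.sub_add_cancel (by omega)]
            · have : l = i := by omega
              subst this
              refine ⟨f (y m), m, by omega, by omega, Or.inr ⟨rfl, ?_⟩⟩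
              rw [hy2, hy1 l him]
          · rcases Nat.lt_or_ge l m with h | h
            · exact ⟨_, l + 1, by omega, by omega, Or.inl ⟨rfl, rfl⟩⟩
            · have : l = m := by omega
              subst this
              refine ⟨y (i + 1), i, le_rfl, by omega, Or.inl ⟨?_, rfl⟩⟩
              rw [hy2, hy1 i him]
        · exact ⟨f (y i), y (i + 1), i, le_rfl, by omega, Or.inl ⟨rfl, rfl⟩⟩
      · by_cases hB : ∃ i ≤ m, z = f (x i)
        · exfalso
          obtain ⟨i, him, rfl⟩ := hB
          have hlt : i < m := by
            rcases Nat.lt_or_ge i m with h | h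
            · exact h
            · have : i = m := by omega
              subst this
              exact absurd hz (hi _)
          refine hcon ⟨m - i, fun k => x (k + i), by omega, ?_, ?_, ?_, ?_, ?_⟩
          · intro k hk; exact h1 _ (by omega)
          · intro k hk
            have := h2 (k + i) (by omega)
            rwa [show k + i + 1 = k + 1 + i by ring] at this
          · simp only [Nat.zero_add]
            rwa [Nat.sub_add_cancel (by omega)]
          · intro a ha b hb hab
            have := h3 _ (by omega) _ (by omega) hab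
            omega
          · intro a ha b hb hab
            exact h4 _ (by omega) _ (by omega) hab
        · have hzX : z ∈ X := by
            rcases hz' with h | h
            · exact h
            · exact absurd ⟨0, Nat.zero_le _, by rw [h0]; exact h⟩ hB
          push Not at hA hB
          refine ⟨fun k => if k ≤ m then x k else z, by simp [h0], ?_, ?_, ?_, ?_⟩
          · intro k hk
            by_cases h : k ≤ m
            · simp only [h, if_true]; exact h1 k h
            · simp only [h, if_false]; exact hzX
          · intro k hk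
            by_cases h : k + 1 ≤ m
            · have h' : k ≤ m := by omega
              simp only [h, h', if_true]
              exact h2 k (by omega)
            · have h' : k = m := by omega
              subst h'
              simp only [le_refl, h, if_true, if_false]
              exact hz
          · intro a ha b hb hab
            by_cases h : a ≤ m <;> by_cases h' : b ≤ m
            · simp only [h, h', if_true] at hab
              exact h3 a h b h' hab
            · simp only [h, h', if_true, if_false] at hab
              exact absurd hab.symm (hA a h)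
            · simp only [h, h', if_true, if_false] at hab
              exact absurd hab (hA b h')
            · omega
          · intro a ha b hb hab
            by_cases h : a ≤ m <;> by_cases h' : b ≤ m
            · simp only [h, h', if_true] at hab
              exact h4 a h b h' hab
            · simp only [h, h', if_true, if_false] at hab
              refine hB a h ?_
              rw [hab, hf]
            · simp only [h, h', if_true, if_false] at hab
              exact hB b h' hab
            · simp only [h, h', if_false] at hab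
              exact hn z hab.symm
  obtain ⟨x, -, -, -, h3, -⟩ := key (Fintype.card V)
  have hinj : Function.Injective fun i : Fin (Fintype.card V + 1) => x i := by
    intro a b hab
    exact Fin.ext (h3 a (by omega) b (by omega) hab)
  have := Fintype.card_le_of_injective _ hinj
  rw [Fintype.card_fin] at this
  omega

end Pool.Agent.H66.GD
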