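import Pool.Agent.H66.GD.Tri

/-!
# The removable circuit
-/

namespace Pool.Agent.H66.GD

open Finset
open scoped Classical

variable {V : Type*} [Fintype V]

/-- The component of `r` in the graph of an alternating set. -/
def compC {G : SimpleGraph V} {w : Sym2 V → ℕ} {N : Drt G w → Drt G w → Prop}
    (hN : Alt FD rv N) (r : V) : G.Subgraph where
  verts := {v | Relation.ReflTransGen (HG N) r v}
  Adj x y := HG N x y ∧ Relation.ReflTransGen (HG N) r x
  adj_sub h := HG_adj hN h.1
  edge_vert h := h.2
  symm := ⟨fun _ _ h => ⟨HG_symm hN h.1, h.2.tail h.1⟩⟩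

theorem compC_circuit {G : SimpleGraph V} {w : Sym2 V → ℕ} (hG : Cubic G) (hw : IsWeight G w)
    {N : Drt G w → Drt G w → Prop} (hN : Alt FD rv N) (r y : V) (hr : HG N r y) :
    IsCircuit (compC hN r) := by
  constructor
  · rw [SimpleGraph.Subgraph.connected_iff']
    have key : ∀ v (hv : Relation.ReflTransGen (HG N) r v),
        (compC hN r).coe.Reachable ⟨r, Relation.ReflTransGen.refl⟩ ⟨v, hv⟩ := by
      intro v hv
      induction hv with
      | refl => exact SimpleGraph.Reachable.refl _
      | tail hb hbc ih =>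
        refine ih.trans (SimpleGraph.Adj.reachable ?_)
        exact ⟨hbc, hb⟩
    rw [SimpleGraph.connected_iff]
    refine ⟨fun a b => ?_, ⟨⟨r, Relation.ReflTransGen.refl⟩⟩⟩
    exact (key a.1 a.2).symm.trans (key b.1 b.2)
  · intro v hv
    have h1 : ∃ z, HG N v z := by
      rcases Relation.ReflTransGen.cases_tail hv with h | ⟨c, _, h⟩
      · exact ⟨y, h ▸ hr⟩
      · exact ⟨c, HG_symm hN h⟩
    obtain ⟨z, hz⟩ := h1
    have h2 : (compC hN r).neighborSet v = {z | HG N v z} := by
      ext z
      exact ⟨fun h => h.1, fun h => ⟨h, hv⟩⟩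
    rw [h2]
    exact HG_deg hG hw hN hz

theorem less_eulerian {G : SimpleGraph V} {w : Sym2 V → ℕ} (hw : IsWeight G w)
    {C : G.Subgraph} (hC : IsCircuit C) : Eulerian (pos G (less w C)) (less w C) := by
  intro v
  have e1 : {u | (pos G (less w C)).Adj v u ∧ Odd (less w C s(v, u))} =
      ((G.neighborFinset v).filter fun u => Odd (less w C s(v, u)) : Finset V) := by
    ext u
    simp only [Set.mem_setOf_eq, coe_filter, SimpleGraph.mem_neighborFinset, pos]
    constructor
    · rintro ⟨h1, h2⟩; exact ⟨h1.1, h2⟩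
    · rintro ⟨h1, h2⟩; exact ⟨⟨h1, h2.pos⟩, h2⟩
  rw [e1, Set.ncard_coe_finset, ← Finset.even_sum_iff_even_card_odd]
  have e2 : Even (∑ u ∈ G.neighborFinset v, w s(v, u)) := by
    rw [Finset.even_sum_iff_even_card_odd, ← Set.ncard_coe_finset]
    convert hw.2 v using 2
    ext u
    simp only [coe_filter, SimpleGraph.mem_neighborFinset, Set.mem_setOf_eq]
  have e3 : ∑ u ∈ G.neighborFinset v, w s(v, u) = ∑ u ∈ G.neighborFinset v, less w C s(v, u) +
      ∑ u ∈ G.neighborFinset v, (if s(v, u) ∈ C.edgeSet then 1 else 0) := by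
    rw [← sum_add_distrib]
    refine sum_congr rfl fun u hu => ?_
    rw [SimpleGraph.mem_neighborFinset] at hu
    unfold less
    have : 1 ≤ w s(v, u) := by
      rcases hw.1 s(v, u) (by rwa [SimpleGraph.mem_edgeSet]) with h | h <;> omega
    split_ifs <;> omega
  have e4 : Even (∑ u ∈ G.neighborFinset v, (if s(v, u) ∈ C.edgeSet then 1 else 0)) := by
    rw [← card_filter, ← Set.ncard_coe_finset]
    have e5 : (((G.neighborFinset v).filter fun u => s(v, u) ∈ C.edgeSet : Finset V) : Set V) =
        C.neighborSet v := by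
      ext u
      simp only [coe_filter, SimpleGraph.mem_neighborFinset, Set.mem_setOf_eq,
        SimpleGraph.Subgraph.mem_edgeSet, SimpleGraph.Subgraph.mem_neighborSet]
      exact ⟨fun h => h.2, fun h => ⟨h.adj_sub, h⟩⟩
    rw [e5]
    by_cases hv : v ∈ C.verts
    · rw [hC.2 v hv]; decide
    · have : C.neighborSet v = ∅ := by
        ext u
        simp only [SimpleGraph.Subgraph.mem_neighborSet, Set.mem_empty_iff_false, iff_false]
        exact fun h => hv h.fst_mem
      rw [this]; simp
  rw [e3, Nat.even_add] at e2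
  exact e2.2 e4

theorem removable_of_alt {G : SimpleGraph V} {w : Sym2 V → ℕ} (hG : Cubic G)
    (hw : IsWeight G w) {N : Drt G w → Drt G w → Prop} (hN : Alt FD rv N)
    (hT : TEC (GN (FD (G := G) (w := w)) rv N) univ) : ∃ C : G.Subgraph, Removable G w C := by
  obtain ⟨p0, q0, hpq0⟩ := hN.ne
  have hr : HG N p0.1.1 p0.1.2 := Or.inr ⟨p0, rfl, rfl, q0, hpq0⟩
  have hC := compC_circuit hG hw hN _ _ hr
  refine ⟨compC hN p0.1.1, hC, ?_, less_eulerian hw hC⟩
  set C := compC hN p0.1.1 with hCdef
  intro e he hbr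
  induction e using Sym2.ind with
  | _ x y =>
    rw [SimpleGraph.mem_edgeSet] at he
    rw [SimpleGraph.isBridge_iff] at hbr
    set G1 := pos G (less w C) with hG1
    rw [tec_univ_iff] at hT
    obtain ⟨px, hpx⟩ := dart_ex hG hw x
    obtain ⟨py, hpy⟩ := dart_ex hG hw y
    obtain ⟨a, b, a', b', h1, h2, h3, h4, h5, h6, h7⟩ := hT
      (univ.filter fun p => (G1.deleteEdges {s(x, y)}).Reachable x p.1.1)
      ⟨px, mem_filter.2 ⟨mem_univ _, by rw [hpx]⟩⟩ (by
        intro he'
        have := mem_univ py
        rw [← he', mem_filter, hpy] at this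
        exact hbr this.2)
    -- the crossing edges
    have key : ∀ a b : Drt G w, GN FD rv N a b →
        a ∈ univ.filter (fun p => (G1.deleteEdges {s(x, y)}).Reachable x p.1.1) →
        b ∉ univ.filter (fun p => (G1.deleteEdges {s(x, y)}).Reachable x p.1.1) →
        a.1.1 = x ∧ b.1.1 = y ∧ ((b = rv a ∧ W2 G w x y) ∨ W1 G w x y) := by
      intro a b hab ha hb
      rw [mem_filter, not_and] at hb
      have ha2 := (mem_filter.1 ha).2
      have hb2 := hb (mem_univ _)
      have hne : a.1.1 ≠ b.1.1 := by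
        intro h; rw [h] at ha2; exact hb2 ha2
      -- the edge in `G1`
      have hadj : G1.Adj a.1.1 b.1.1 ∧
          ((b = rv a ∧ W2 G w a.1.1 b.1.1) ∨ W1 G w a.1.1 b.1.1) := by
        rcases hab with h | ⟨h, h'⟩
        · have h8 : W2 G w a.1.1 b.1.1 := by rw [h]; exact a.2
          refine ⟨⟨h8.1, ?_⟩, Or.inl ⟨h, h8⟩⟩
          unfold less
          rw [h8.2]
          split_ifs <;> omega
        · have h8 : W1 G w a.1.1 b.1.1 := by
            rcases h.2 with h9 | h9
            · exact absurd h9 hne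
            · exact h9
          refine ⟨⟨h8.1, ?_⟩, Or.inr h8⟩
          unfold less
          rw [h8.2, if_neg]
          · omega
          · rw [SimpleGraph.Subgraph.mem_edgeSet]
            rintro ⟨h9 | h9, -⟩
            · obtain ⟨p, q, k1, k2, k3, k4⟩ := h9
              have e1 := dart_uniq hG hw h8 k2 rfl
              have e2 := dart_uniq hG hw (W1_symm h8) k3 rfl
              subst e1; subst e2
              exact h' k1
            · obtain ⟨p, k1, k2, q, k3⟩ := h9
              have := p.2
              rw [k1, k2] at this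
              exact W12 h8 this
      have heq : s(a.1.1, b.1.1) = s(x, y) := by
        by_contra hcon
        apply hb2
        refine ha2.trans (SimpleGraph.Adj.reachable ?_)
        rw [SimpleGraph.deleteEdges_adj]
        exact ⟨hadj.1, hcon⟩
      rw [Sym2.eq_iff] at heq
      rcases heq with ⟨k1, k2⟩ | ⟨k1, k2⟩
      · refine ⟨k1, k2, ?_⟩
        rw [← k1, ← k2]; exact hadj.2
      · exfalso
        rw [k2] at hb2
        exact hb2 (SimpleGraph.Reachable.refl _)
    obtain ⟨a1, a2, a3⟩ := key a b h3 h1 h2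
    obtain ⟨b1, b2, b3⟩ := key a' b' h6 h4 h5
    apply h7
    rcases a3 with ⟨a3, a4⟩ | a3
    · rcases b3 with ⟨b3, b4⟩ | b3
      · have e1 : a = a' := by
          refine Subtype.ext (Prod.ext (a1.trans b1.symm) ?_)
          have k1 : b.1.1 = a.1.2 := by rw [a3]; rfl
          have k2 : b'.1.1 = a'.1.2 := by rw [b3]; rfl
          rw [← k1, ← k2, a2, b2]
        rw [a3, b3, e1]
      · exact (W12 b3 a4).elim
    · rw [dart_uniq hG hw a3 a1 b1, dart_uniq hG hw (W1_symm a3) a2 b2]

/-! ### Odd circuits -/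

theorem odd_circ {G : SimpleGraph V} {w : Sym2 V → ℕ} (hG : Cubic G) (hw : IsWeight G w)
    (L : Finset (Drt G w)) (hL : Odd' FD rv L) :
    ∃ t, 1 ≤ t ∧ ∃ z : Fin (2 * t + 1) → V, OddCirc G w t z ∧
      ∀ i, ∃ p ∈ L, p.1.1 = z i ∧ ∀ q : Drt G w, q.1.1 = z i → q = p := by
  obtain ⟨⟨X, m, x, hx, hxL⟩, htri⟩ := hL
  -- darts of `L` are the only ones at their vertex
  have huniq : ∀ p ∈ L, ∀ q : Drt G w, q.1.1 = p.1.1 → q = p := by
    intro p hp q hq
    by_contra hne
    rcases vertex_type hG hw p.1.1 with h1 | h1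
    · have hr : ∃ r : Drt G w, r.1.1 = p.1.1 ∧ r ≠ p ∧ r ≠ q := by
        by_contra hcon
        push Not at hcon
        have : (univ.filter fun u => W2 G w p.1.1 u) ⊆ {p.1.2, q.1.2} := by
          intro u hu
          rw [mem_insert, mem_singleton]
          by_cases hup : u = p.1.2
          · exact Or.inl hup
          · right
            have := hcon ⟨(p.1.1, u), (mem_filter.1 hu).2⟩ rfl (fun he => hup (by rw [← he]))
            rw [← this]
        have := card_le_card this
        have := card_le_two (a := p.1.2) (b := q.1.2)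
        omega
      obtain ⟨r, hr1, hrp, hrq⟩ := hr
      exact htri p q r hp ⟨Ne.symm hne, Or.inl hq.symm⟩ ⟨hrp.symm, Or.inl hr1.symm⟩
        ⟨hrq.symm, Or.inl (hq.trans hr1.symm)⟩
    · have : 0 < (univ.filter fun u => W1 G w p.1.1 u).card := by omega
      obtain ⟨u, hu⟩ := card_pos.1 this
      exact hne (dart_uniq hG hw (mem_filter.1 hu).2 hq rfl)
  have hW : ∀ p ∈ L, ∀ q, FD p q → W1 G w p.1.1 q.1.1 := by
    intro p hp q hq
    rcases hq.2 with h | h
    · exact absurd (huniq p hp q h.symm).symm hq.1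
    · exact h
  have hxL' : ∀ k, 1 ≤ k → k ≤ m → x k ∈ L := by
    intro k hk hkm
    have := (hx.edge (k - 1) (by omega)).2.2
    rwa [Nat.sub_add_cancel hk] at this
  -- the darts of the circuit
  set d : Fin (2 * m + 1) → Drt G w := fun i =>
    if Even i.val then rv (x (i.val / 2)) else x (i.val / 2 + 1) with hd
  have hdL : ∀ i, d i ∈ L := by
    intro i
    simp only [hd]
    split_ifs with h
    · exact hxL _ (by omega)
    · rw [Nat.not_even_iff_odd] at h
      obtain ⟨k, hk⟩ := h
      exact hxL' _ (by omega) (by omega)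
  have hdinj : Function.Injective d := by
    intro i j hij
    have hrv : ∀ a b : Drt G w, rv a = rv b → a = b := fun a b h => by
      have := congrArg rv h
      exact this
    simp only [hd] at hij
    apply Fin.ext
    split_ifs at hij with h1 h2 h2
    · have := hx.inj _ (by omega) _ (by omega) (hrv _ _ hij)
      rw [Nat.even_iff] at h1 h2
      omega
    · rw [Nat.not_even_iff_odd] at h2
      obtain ⟨k, hk⟩ := h2
      exact absurd hij.symm (hx.ne _ (by omega) _ (by omega))
    · rw [Nat.not_even_iff_odd] at h1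
      obtain ⟨k, hk⟩ := h1
      exact absurd hij (hx.ne _ (by omega) _ (by omega))
    · rw [Nat.not_even_iff_odd] at h1 h2
      obtain ⟨k, hk⟩ := h1
      obtain ⟨l, hl⟩ := h2
      have := hx.inj _ (by omega) _ (by omega) hij
      omega
  refine ⟨m, hx.pos, fun i => (d i).1.1, ⟨?_, ?_⟩, ?_⟩
  · intro i j hij
    exact hdinj (huniq _ (hdL j) _ hij)
  · intro i
    show G.Adj (d i).1.1 (d (i + 1)).1.1 ∧ w s((d i).1.1, (d (i + 1)).1.1) = _
    have hcase : (i.val + 1 < 2 * m + 1 ∧ (i + 1).val = i.val + 1) ∨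
        (i.val = 2 * m ∧ (i + 1).val = 0) := by
      rcases Nat.lt_or_ge (i.val + 1) (2 * m + 1) with h | h
      · left
        refine ⟨h, ?_⟩
        rw [Fin.val_add_one_of_lt']
        exact h
      · right
        have h1 : i.val = 2 * m := by omega
        refine ⟨h1, ?_⟩
        have : i = Fin.last (2 * m) := Fin.ext h1
        rw [this]
        simp
    rcases hcase with ⟨h1, h2⟩ | ⟨h1, h2⟩
    · by_cases he : Even i.val
      · rw [if_pos he]
        have ho : ¬ Even (i + 1).val := by
          rw [h2, Nat.even_add_one, not_not]; exact he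
        have e1 : d i = rv (x (i.val / 2)) := by simp only [hd, if_pos he]
        have e2 : d (i + 1) = x (i.val / 2 + 1) := by
          simp only [hd, if_neg ho]
          rw [h2]
          congr 1
          rw [Nat.even_iff] at he
          omega
        have h3 : FD (d i) (d (i + 1)) := by
          rw [e1, e2]
          exact (hx.edge (i.val / 2) (by rw [Nat.even_iff] at he; omega)).1
        exact hW _ (hdL i) _ h3
      · rw [if_neg he]
        have ho : Even (i + 1).val := by
          rw [h2, Nat.even_add_one]; exact he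
        have e1 : d i = x (i.val / 2 + 1) := by simp only [hd, if_neg he]
        have e2 : d (i + 1) = rv (x (i.val / 2 + 1)) := by
          simp only [hd, if_pos ho]
          rw [h2]
          congr 2
          rw [Nat.not_even_iff_odd] at he
          obtain ⟨k, hk⟩ := he
          omega
        rw [e1, e2]
        exact (x (i.val / 2 + 1)).2
    · have he : Even i.val := by rw [h1]; exact even_two_mul m
      rw [if_pos he]
      have e1 : d i = rv (x m) := by
        simp only [hd, if_pos he]
        rw [h1]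
        congr 2
        omega
      have e2 : d (i + 1) = rv (x 0) := by
        simp only [hd, h2]
        simp
      have h3 : FD (d i) (d (i + 1)) := by
        rw [e1, e2]
        exact hx.last.1
      exact hW _ (hdL i) _ h3
  · intro i
    exact ⟨d i, hdL i, rfl, fun q hq => huniq _ (hdL i) q hq⟩

/-- The main theorem. -/
theorem main {G : SimpleGraph V} {w : Sym2 V → ℕ} (hG : Cubic G) (hw : IsWeight G w)
    (hc : G.Connected) (hb : Bridgeless G) (hno : ¬ ∃ C : G.Subgraph, Removable G w C) (ρ : V) :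
    ∃ s t, 1 ≤ s ∧ 1 ≤ t ∧ ∃ (x : Fin (2 * s + 1) → V) (y : Fin (2 * t + 1) → V),
      OddCirc G w s x ∧ OddCirc G w t y ∧ (∀ i j, x i ≠ y j) ∧ ∀ i, x i ≠ ρ := by
  obtain ⟨p0, hp0⟩ := dart_ex hG hw ρ
  have hsing : ∀ {W : Type _} [Fintype W] (E : W → W → Prop) (p : W), TEC E {p} := by
    intro W _ E p A hA hn hne
    exact absurd (hn.subset_singleton_iff.1 hA) hne
  obtain ⟨L1, L2, hd, hd0, ho1, ho2⟩ := spanning (sysD hG hw) (tecD hG hw hc hb)
    (fun N hN hT => hno (removable_of_alt hG hw hN hT)) {p0} ⟨p0, mem_singleton_self _⟩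
    (fun N _ => hsing _ p0)
  obtain ⟨s, hs, x, hx, hxL⟩ := odd_circ hG hw L1 ho1
  obtain ⟨t, ht, y, hy, hyL⟩ := odd_circ hG hw L2 ho2
  refine ⟨s, t, hs, ht, x, y, hx, hy, ?_, ?_⟩
  · intro i j hij
    obtain ⟨p, hp, hpx, -⟩ := hxL i
    obtain ⟨q, hq, -, hqu⟩ := hyL j
    have := hqu p (hpx.trans hij)
    rw [this] at hp
    exact disjoint_left.1 hd hp hq
  · intro i hi
    obtain ⟨p, hp, -, hpu⟩ := hxL i
    have := hpu p0 (hp0.trans hi.symm)
    rw [← this] at hp
    exact disjoint_left.1 hd0 hp (mem_singleton_self _)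

end Pool.Agent.H66.GD
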