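import Mathlib

/-!
# Critical contra pairs: definitions
-/

namespace Pool.Agent.H66.GD

open scoped Classical

variable {V : Type*}

/-- Every vertex has exactly three neighbours. -/
def Cubic (G : SimpleGraph V) : Prop := ∀ v, (G.neighborSet v).ncard = 3

/-- No edge is a bridge. -/
def Bridgeless (G : SimpleGraph V) : Prop := ∀ e ∈ G.edgeSet, ¬ G.IsBridge e

/-- A circuit: a connected 2-regular subgraph. -/
def IsCircuit {G : SimpleGraph V} (C : G.Subgraph) : Prop :=
  C.Connected ∧ ∀ v ∈ C.verts, (C.neighborSet v).ncard = 2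

/-- The edges of odd weight induce an even subgraph. -/
def Eulerian (G : SimpleGraph V) (w : Sym2 V → ℕ) : Prop :=
  ∀ v, Even {u | G.Adj v u ∧ Odd (w s(v, u))}.ncard

/-- An eulerian `(1,2)`-weight. -/
def IsWeight (G : SimpleGraph V) (w : Sym2 V → ℕ) : Prop :=
  (∀ e ∈ G.edgeSet, w e = 1 ∨ w e = 2) ∧ Eulerian G w

/-- The weight `w - χ_C`. -/
noncomputable def less {G : SimpleGraph V} (w : Sym2 V → ℕ) (C : G.Subgraph) (e : Sym2 V) : ℕ :=
  w e - if e ∈ C.edgeSet then 1 else 0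

/-- The subgraph formed by the edges of positive weight. -/
def pos (G : SimpleGraph V) (w : Sym2 V → ℕ) : SimpleGraph V where
  Adj u v := G.Adj u v ∧ 0 < w s(u, v)
  symm := ⟨fun u v h => ⟨h.1.symm, by rw [Sym2.eq_swap]; exact h.2⟩⟩
  loopless := ⟨fun v h => G.loopless.irrefl v h.1⟩

/-- `C` is a removable circuit of `(G, w)`. -/
def Removable (G : SimpleGraph V) (w : Sym2 V → ℕ) (C : G.Subgraph) : Prop :=
  IsCircuit C ∧ Bridgeless (pos G (less w C)) ∧ Eulerian (pos G (less w C)) (less w C)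

/-- The circuit `z 0, z 1, …, z (2 t)` of odd length `2 t + 1` whose edges have the weights
`1, 2, 1, 2, …, 2, 1`. -/
def OddCirc (G : SimpleGraph V) (w : Sym2 V → ℕ) (t : ℕ) (z : Fin (2 * t + 1) → V) : Prop :=
  Function.Injective z ∧ ∀ i, G.Adj (z i) (z (i + 1)) ∧
    w s(z i, z (i + 1)) = if Even i.val then 1 else 2

/-- The edge `e` is a component of the subgraph formed by the edges of weight two. -/
def SingleComp (G : SimpleGraph V) (w : Sym2 V → ℕ) (e : Sym2 V) : Prop :=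
  e ∈ G.edgeSet ∧ w e = 2 ∧ ∀ e' ∈ G.edgeSet, w e' = 2 → ∀ v, v ∈ e → v ∈ e' → e' = e

/-- No edge cut with at most three edges separates two circuits. -/
def CycConn4 (G : SimpleGraph V) : Prop :=
  ∀ A : Set V, {e ∈ G.edgeSet | ∃ u ∈ A, ∃ v ∉ A, e = s(u, v)}.ncard ≤ 3 →
    ¬ ((∃ C : G.Subgraph, IsCircuit C ∧ C.verts ⊆ A) ∧
      ∃ C : G.Subgraph, IsCircuit C ∧ C.verts ⊆ Aᶜ)

end Pool.Agent.H66.GD
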