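import Pool.Agent.H66.GD.Kotzig

/-!
# Two-edge-connected sets
-/

namespace Pool.Agent.H66.GD

open Finset
open scoped Classical

variable {V : Type*}

/-- Every cut of `K` has at least two edges. -/
def TEC (E : V → V → Prop) (K : Finset V) : Prop :=
  ∀ A, A ⊆ K → A.Nonempty → A ≠ K → 2 ≤ ct E A (K \ A)

/-- Every cut of `P` has at least one edge. -/
def CC (E : V → V → Prop) (P : Finset V) : Prop :=
  ∀ A, A ⊆ P → A.Nonempty → A ≠ P → 1 ≤ ct E A (P \ A)

theorem TEC.mono {E E' : V → V → Prop} {K : Finset V} (h : TEC E K)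
    (hE : ∀ a ∈ K, ∀ b ∈ K, E a b → E' a b) : TEC E' K := fun A hA hn hne =>
  (h A hA hn hne).trans (ct_mono (Subset.refl _) (Subset.refl _)
    fun a ha b hb => hE a (hA ha) b (mem_sdiff.1 hb).1)

theorem comp_exists {E : V → V → Prop} (hs : ∀ u v, E u v → E v u) (R : Finset V) (x : V)
    (hx : x ∈ R) : ∃ P, P ⊆ R ∧ x ∈ P ∧ CC E P ∧ ct E P (R \ P) = 0 := by
  set Q : Finset (Finset V) := R.powerset.filter fun P => x ∈ P ∧ ct E P (R \ P) = 0 with hQ
  have hne : Q.Nonempty := by
    refine ⟨R, ?_⟩
    rw [hQ, mem_filter, mem_powerset]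
    refine ⟨Subset.refl _, hx, ?_⟩
    rw [sdiff_self]
    simp [ct]
  obtain ⟨P, hP, hmin⟩ := exists_min_image Q Finset.card hne
  rw [hQ, mem_filter, mem_powerset] at hP
  obtain ⟨hPR, hxP, h0⟩ := hP
  refine ⟨P, hPR, hxP, ?_, h0⟩
  -- a smaller set is excluded
  have key : ∀ A, A ⊆ P → x ∈ A → A ≠ P → 1 ≤ ct E A (P \ A) := by
    intro A hA hxA hne'
    by_contra hc
    have h1 : ct E A (P \ A) = 0 := by omega
    have h2 : A ∈ Q := by
      rw [hQ, mem_filter, mem_powerset]
      refine ⟨hA.trans hPR, hxA, ?_⟩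
      rw [ct_eq_zero] at h0 h1 ⊢
      intro a ha b hb
      rw [mem_sdiff] at hb
      by_cases hbP : b ∈ P
      · exact h1 a ha b (mem_sdiff.2 ⟨hbP, hb.2⟩)
      · exact h0 a (hA ha) b (mem_sdiff.2 ⟨hb.1, hbP⟩)
    have h3 := hmin A h2
    have h4 := card_lt_card (hA.ssubset_of_ne hne')
    omega
  intro A hA hAn hne'
  by_cases hxA : x ∈ A
  · exact key A hA hxA hne'
  · have h1 := key (P \ A) sdiff_subset (mem_sdiff.2 ⟨hxP, hxA⟩) (by
      intro he
      obtain ⟨a, ha⟩ := hAn
      have := hA ha
      rw [← he, mem_sdiff] at this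
      exact this.2 ha)
    rwa [_root_.sdiff_sdiff_eq_self hA, ct_comm hs] at h1

theorem tec_ext {E : V → V → Prop} (hs : ∀ u v, E u v → E v u) {K : Finset V} (hK : TEC E K)
    (n : ℕ) : ∀ P : Finset V, P.card ≤ n → Disjoint K P → CC E P → 2 ≤ ct E K P →
    ∃ K', K ⊂ K' ∧ K' ⊆ K ∪ P ∧ TEC E K' := by
  induction n with
  | zero =>
    intro P hP _ _ h2
    rw [Nat.le_zero, card_eq_zero] at hP
    subst hP
    simp [ct] at h2
  | succ n ih =>
    intro P hP hd hcc h2
    by_cases hT : TEC E (K ∪ P)
    · refine ⟨K ∪ P, ?_, Subset.refl _, hT⟩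
      refine ⟨subset_union_left, fun hsub => ?_⟩
      obtain ⟨a, _, b, hb, _⟩ := ct_pos.1 (show 1 ≤ ct E K P by omega)
      exact disjoint_left.1 hd (hsub (mem_union_right _ hb)) hb
    · -- a small cut, on the side of `P`
      have hA : ∃ A, A ⊆ P ∧ A.Nonempty ∧ ct E A ((K ∪ P) \ A) ≤ 1 := by
        unfold TEC at hT
        push Not at hT
        obtain ⟨A, hAs, hAn, hAne, hA1⟩ := hT
        by_cases h1 : (A ∩ K).Nonempty
        · by_cases h3 : A ∩ K = K
          · -- the complement
            refine ⟨(K ∪ P) \ A, ?_, ?_, ?_⟩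
            · intro a ha
              rw [mem_sdiff, mem_union] at ha
              rcases ha.1 with h | h
              · rw [← h3, mem_inter] at h
                exact absurd h.1 ha.2
              · exact h
            · rw [sdiff_nonempty]
              intro hsub
              exact hAne (Subset.antisymm hAs hsub)
            · rw [_root_.sdiff_sdiff_eq_self hAs, ct_comm hs]
              omega
          · exfalso
            have := hK (A ∩ K) inter_subset_right h1 h3
            have h4 : ct E (A ∩ K) (K \ (A ∩ K)) ≤ ct E A ((K ∪ P) \ A) := by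
              refine ct_mono inter_subset_left ?_ fun _ _ _ _ h => h
              intro b hb
              rw [mem_sdiff, mem_inter, not_and'] at hb
              exact mem_sdiff.2 ⟨mem_union_left _ hb.1, hb.2 hb.1⟩
            omega
        · rw [not_nonempty_iff_eq_empty] at h1
          refine ⟨A, ?_, hAn, by omega⟩
          intro a ha
          rcases mem_union.1 (hAs ha) with h | h
          · have : a ∈ A ∩ K := mem_inter.2 ⟨ha, h⟩
            rw [h1] at this
            exact absurd this (notMem_empty _)
          · exact h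
      obtain ⟨A, hAP, hAn, hA1⟩ := hA
      have hAK : Disjoint A K := (disjoint_of_subset_right hAP hd).symm
      have hsp : (K ∪ P) \ A = K ∪ (P \ A) := by
        ext z
        simp only [mem_sdiff, mem_union]
        constructor
        · rintro ⟨h1 | h1, h2⟩
          · exact Or.inl h1
          · exact Or.inr ⟨h1, h2⟩
        · rintro (h1 | ⟨h1, h2⟩)
          · exact ⟨Or.inl h1, fun h => disjoint_left.1 hAK h h1⟩
          · exact ⟨Or.inr h1, h2⟩
      have hd2 : Disjoint K (P \ A) := disjoint_of_subset_right sdiff_subset hd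
      rw [hsp, ct_union_right _ hd2] at hA1
      have hAne : A ≠ P := by
        rintro rfl
        rw [ct_comm hs] at hA1
        omega
      have h3 := hcc A hAP hAn hAne
      have h4 : ct E K A = 0 := by rw [ct_comm hs]; omega
      have h5 : ct E K (P \ A) = ct E K P := by
        have := ct_union_right (E := E) K (disjoint_sdiff : Disjoint A (P \ A))
        rw [union_sdiff_of_subset hAP] at this
        omega
      have hcc' : CC E (P \ A) := by
        intro X hX hXn hXne
        by_contra hc
        have h6 : ct E X ((P \ A) \ X) = 0 := by omega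
        have hXP : X ⊆ P := hX.trans sdiff_subset
        have hXA : Disjoint X A := disjoint_of_subset_left hX sdiff_disjoint
        set Y := (P \ A) \ X with hY
        have hYP : Y ⊆ P := sdiff_subset.trans sdiff_subset
        have hYn : Y.Nonempty := by
          rw [hY, sdiff_nonempty]
          intro h; exact hXne (Subset.antisymm hX h)
        have hXY : Disjoint X Y := disjoint_sdiff
        have hPA : P \ A = X ∪ Y := (union_sdiff_of_subset hX).symm
        have h7 : ct E A X + ct E A Y = ct E A (P \ A) := by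
          rw [hPA, ct_union_right _ hXY]
        have hYA : Disjoint Y A := disjoint_of_subset_left sdiff_subset sdiff_disjoint
        have e1 : P \ Y = A ∪ X := by
          ext z
          simp only [hY, mem_sdiff, mem_union]
          constructor
          · rintro ⟨h1, h2⟩
            by_cases hz : z ∈ A
            · exact Or.inl hz
            · right
              by_contra hzX
              exact h2 ⟨⟨h1, hz⟩, hzX⟩
          · rintro (h1 | h1)
            · exact ⟨hAP h1, fun h => h.1.2 h1⟩
            · exact ⟨hXP h1, fun h => h.2 h1⟩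
        have e2 : P \ X = A ∪ Y := by
          ext z
          simp only [hY, mem_sdiff, mem_union]
          constructor
          · rintro ⟨h1, h2⟩
            by_cases hz : z ∈ A
            · exact Or.inl hz
            · exact Or.inr ⟨⟨h1, hz⟩, h2⟩
          · rintro (h1 | h1)
            · exact ⟨hAP h1, fun h => disjoint_left.1 hXA h h1⟩
            · exact ⟨h1.1.1, h1.2⟩
        rcases Nat.eq_zero_or_pos (ct E A Y) with h8 | h8
        · have := hcc Y hYP hYn (by
            rintro he
            obtain ⟨a, ha⟩ := hXn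
            have h9 := hXP ha
            rw [← he] at h9
            exact disjoint_left.1 hXY ha h9)
          rw [e1, ct_union_right _ hXA.symm, ct_comm hs Y A, h8, ct_comm hs Y X, h6] at this
          omega
        · have := hcc X hXP hXn (by
            rintro he
            obtain ⟨a, ha⟩ := hYn
            have h9 := hYP ha
            rw [← he] at h9
            exact disjoint_left.1 hXY h9 ha)
          rw [e2, ct_union_right _ hYA.symm, ct_comm hs X A, h6] at this
          omega
      have hlt : (P \ A).card ≤ n := by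
        have h9 : P \ A ⊂ P := by
          refine ⟨sdiff_subset, fun hsub => ?_⟩
          obtain ⟨a, ha⟩ := hAn
          exact (mem_sdiff.1 (hsub (hAP ha))).2 ha
        have := card_lt_card h9
        omega
      obtain ⟨K', h6, h7, h8⟩ := ih (P \ A) hlt hd2 hcc' (by omega)
      exact ⟨K', h6, h7.trans (union_subset_union_right sdiff_subset), h8⟩

/-! ### The cubic graph -/

variable [Fintype V]

/-- A 2-regular simple graph `F` and a fixed point free involution `f` with `F u (f u)` false. -/
structure Sys (F : V → V → Prop) (f : V → V) : Prop where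
  symm : ∀ u v, F u v → F v u
  irr : ∀ v, ¬ F v v
  deg : ∀ v, ct F {v} univ = 2
  inv : ∀ v, f (f v) = v
  ne : ∀ v, f v ≠ v
  nF : ∀ v, ¬ F v (f v)

/-- The graph without the edges in `N`. -/
def GN (F : V → V → Prop) (f : V → V) (N : V → V → Prop) (u v : V) : Prop :=
  v = f u ∨ (F u v ∧ ¬ N u v)

/-- The restriction to `B`. -/
def res (F : V → V → Prop) (B : Finset V) (u v : V) : Prop := F u v ∧ u ∈ B ∧ v ∈ B

theorem GN_symm {F : V → V → Prop} {f : V → V} (S : Sys F f) {N : V → V → Prop}
    (hN : ∀ u v, N u v → N v u) (u v : V) (h : GN F f N u v) : GN F f N v u := by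
  rcases h with h | h
  · left; rw [h, S.inv]
  · exact Or.inr ⟨S.symm _ _ h.1, fun h' => h.2 (hN _ _ h')⟩

theorem Alt.of_res {F : V → V → Prop} {f : V → V} {B : Finset V} {D : V → V → Prop}
    (h : Alt (res F B) f D) : Alt F f D :=
  ⟨h.symm, fun u v huv => (h.sub u v huv).1, h.uniq, h.clos, h.ne⟩

theorem Alt.res_mono {F : V → V → Prop} {f : V → V} {B B' : Finset V} (hB : B ⊆ B')
    {D : V → V → Prop} (h : Alt (res F B) f D) : Alt (res F B') f D :=
  ⟨h.symm, fun u v huv => ⟨(h.sub u v huv).1, hB (h.sub u v huv).2.1, hB (h.sub u v huv).2.2⟩,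
    h.uniq, h.clos, h.ne⟩

theorem ct_compl {E : V → V → Prop} (A B : Finset V) :
    ct E A univ = ct E A B + ct E A Bᶜ := by
  rw [← ct_union_right _ disjoint_compl_right, union_compl]

theorem ct_univ_eq_sum (E : V → V → Prop) (A : Finset V) :
    ct E A univ = ∑ a ∈ A, ct E {a} univ := by
  unfold ct
  simp

theorem ctN_single {E : V → V → Prop} {f : V → V} {N : V → V → Prop} (hN : Alt E f N) (u : V) :
    ct N {u} univ = if ∃ w, N u w then 1 else 0 := by
  split_ifs with h
  · obtain ⟨w, hw⟩ := h
    have h1 : ct N {u} univ ≤ 1 := by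
      by_contra hc
      have h2 : 2 ≤ ct N {u} univ := by omega
      rw [ct_eq_card] at h2
      obtain ⟨p, hp, q, hq, hpq⟩ := one_lt_card.1 (show 1 < _ from h2)
      rw [mem_filter, mem_product, mem_singleton] at hp hq
      apply hpq
      have e1 := hp.1.1
      have e2 := hq.1.1
      have e3 := hN.uniq _ _ _ (e1 ▸ hp.2) (e2 ▸ hq.2)
      exact Prod.ext (e1.trans e2.symm) e3
    have h2 : 1 ≤ ct N {u} univ := ct_pos.2 ⟨u, mem_singleton_self _, w, mem_univ _, hw⟩
    omega
  · rw [ct_eq_zero]
    intro a ha b _ hab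
    rw [mem_singleton] at ha
    subst ha
    exact h ⟨b, hab⟩

theorem degF0 {F : V → V → Prop} {f : V → V} (S : Sys F f) {N : V → V → Prop} (hN : Alt F f N)
    (u : V) : ct (fun a b => F a b ∧ ¬ N a b) {u} univ = if ∃ w, N u w then 1 else 2 := by
  have h1 := ct_split (E := F) (E' := N) {u} univ
  have h2 : ct (fun a b => F a b ∧ N a b) {u} univ = ct N {u} univ := by
    congr 1
    ext a b
    exact ⟨fun h => h.2, fun h => ⟨hN.sub _ _ h, h⟩⟩
  rw [S.deg, h2, ctN_single hN] at h1
  split_ifs at h1 ⊢ with h
  · omega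
  · omega

/-- The parity argument. -/
theorem par {F : V → V → Prop} {f : V → V} (S : Sys F f) {N : V → V → Prop} (hN : Alt F f N)
    (A : Finset V) (hA : ∀ a ∈ A, f a ∈ A) :
    Even (ct (fun a b => F a b ∧ ¬ N a b) A Aᶜ) := by
  set E0 : V → V → Prop := fun a b => F a b ∧ ¬ N a b with hE0
  have hs0 : ∀ u v, E0 u v → E0 v u := fun u v h =>
    ⟨S.symm _ _ h.1, fun h' => h.2 (hN.symm _ _ h')⟩
  have h1 := ct_compl (E := E0) A A
  have h2 := ct_even hs0 (fun v h => S.irr v h.1) A
  have h3 : Even (ct E0 A univ) := by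
    rw [ct_univ_eq_sum]
    have h4 : ∀ a ∈ A, ct E0 {a} univ = if ∃ w, N a w then 1 else 2 := fun a _ => degF0 S hN a
    rw [sum_congr rfl h4, sum_ite, sum_const, sum_const, smul_eq_mul, smul_eq_mul, mul_one]
    refine Even.add ?_ (even_two.mul_left _)
    refine even_card_of_inv S.inv S.ne _ ?_
    intro s hs
    rw [mem_filter] at hs ⊢
    obtain ⟨w, hw⟩ := hs.2
    exact ⟨hA s hs.1, hN.clos _ _ hw⟩
  rw [h1, Nat.even_add] at h3
  exact h3.1 h2

/-- The existence of an alternating circuit. -/
theorem alt_exists [Nonempty V] {F : V → V → Prop} {f : V → V} (S : Sys F f)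
    (h2 : TEC (GN F f fun _ _ => False) univ) : ∃ N, Alt F f N := by
  by_contra hno
  obtain ⟨A, -, p, hp, hfp, hcl, hed⟩ := kotzig S.inv S.ne (univ : Finset V).card univ F le_rfl
    univ_nonempty (fun _ _ => mem_univ _) S.symm S.irr (fun _ _ _ => mem_univ _) hno
  have h3 := h2 A (subset_univ _) ⟨p, hp⟩ (fun he => hfp (he ▸ mem_univ _))
  rw [ct_eq_card] at h3
  obtain ⟨x, hx, y, hy, hxy⟩ := one_lt_card.1 (show 1 < _ from h3)
  have key : ∀ x ∈ (A ×ˢ (univ \ A)).filter fun q => GN F f (fun _ _ => False) q.1 q.2,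
      x = (p, f p) := by
    intro x hx
    rw [mem_filter, mem_product, mem_sdiff] at hx
    rcases hx.2 with h | h
    · have h5 : x.1 = p := by
        by_contra hne
        exact hx.1.2.2 (h ▸ hcl _ hx.1.1 hne)
      exact Prod.ext h5 (by rw [h, h5])
    · exact absurd h.1 (hed _ hx.1.1 _ hx.1.2.2)
  exact hxy ((key x hx).trans (key y hy).symm)

end Pool.Agent.H66.GD
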