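import Pool.Agent.H66.GD.Rem

/-!
# Consequences for cyclically 4-edge-connected graphs
-/

namespace Pool.Agent.H66.GD

open Finset
open scoped Classical

variable {V : Type*} [Fintype V]

/-- The subgraph of an odd circuit. -/
def circSub {G : SimpleGraph V} {t : ℕ} (z : Fin (2 * t + 1) → V)
    (h : ∀ i, G.Adj (z i) (z (i + 1))) : G.Subgraph where
  verts := Set.range z
  Adj u v := ∃ i, (u = z i ∧ v = z (i + 1)) ∨ (v = z i ∧ u = z (i + 1))
  adj_sub := by
    rintro u v ⟨i, ⟨rfl, rfl⟩ | ⟨rfl, rfl⟩⟩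
    · exact h i
    · exact (h i).symm
  edge_vert := by
    rintro u v ⟨i, ⟨rfl, rfl⟩ | ⟨rfl, rfl⟩⟩
    · exact ⟨i, rfl⟩
    · exact ⟨i + 1, rfl⟩
  symm := ⟨fun u v ⟨i, hi⟩ => ⟨i, hi.symm⟩⟩

omit [Fintype V] in
theorem circSub_circuit {G : SimpleGraph V} {t : ℕ} (ht : 1 ≤ t) (z : Fin (2 * t + 1) → V)
    (hz : Function.Injective z) (h : ∀ i, G.Adj (z i) (z (i + 1))) :
    IsCircuit (circSub z h) := by
  constructor
  · rw [SimpleGraph.Subgraph.connected_iff', SimpleGraph.connected_iff]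
    have key : ∀ k : ℕ, ∀ hk : k < 2 * t + 1, (circSub z h).coe.Reachable
        ⟨z 0, ⟨0, rfl⟩⟩ ⟨z ⟨k, hk⟩, ⟨⟨k, hk⟩, rfl⟩⟩ := by
      intro k
      induction k with
      | zero => intro hk; exact SimpleGraph.Reachable.refl _
      | succ k ih =>
        intro hk
        refine (ih (by omega)).trans (SimpleGraph.Adj.reachable ?_)
        refine ⟨⟨k, by omega⟩, Or.inl ⟨rfl, ?_⟩⟩
        show z ⟨k + 1, hk⟩ = z (⟨k, by omega⟩ + 1)
        have he : (⟨k + 1, hk⟩ : Fin (2 * t + 1)) = ⟨k, by omega⟩ + 1 := by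
          apply Fin.ext
          rw [Fin.val_add_one_of_lt' (by simpa using hk)]
        rw [he]
    refine ⟨?_, ⟨⟨z 0, ⟨0, rfl⟩⟩⟩⟩
    rintro ⟨_, ⟨i, rfl⟩⟩ ⟨_, ⟨j, rfl⟩⟩
    exact (key i.val i.isLt).symm.trans (key j.val j.isLt)
  · rintro _ ⟨i, rfl⟩
    have hset : (circSub z h).neighborSet (z i) = {z (i + 1), z (i - 1)} := by
      ext u
      simp only [SimpleGraph.Subgraph.mem_neighborSet, Set.mem_insert_iff,
        Set.mem_singleton_iff]
      constructor
      · rintro ⟨j, ⟨h1, rfl⟩ | ⟨rfl, h1⟩⟩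
        · left; rw [hz h1]
        · right
          have := hz h1
          rw [this, add_sub_cancel_right]
      · rintro (rfl | rfl)
        · exact ⟨i, Or.inl ⟨rfl, rfl⟩⟩
        · exact ⟨i - 1, Or.inr ⟨rfl, by rw [sub_add_cancel]⟩⟩
    rw [hset, Set.ncard_pair]
    intro he
    have h1 := hz he
    have h2 : (1 : Fin (2 * t + 1)) + 1 = 0 := by
      have h3 : i + 1 + 1 = i := by
        rw [h1, sub_add_cancel]
      have h4 : i + (1 + 1) = i + 0 := by rw [← add_assoc, h3, add_zero]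
      exact add_left_cancel h4
    have h3 := congrArg Fin.val h2
    rw [Fin.val_add, Fin.val_one', Fin.val_zero] at h3
    have h4 : 1 % (2 * t + 1) = 1 := Nat.mod_eq_of_lt (by omega)
    rw [h4, Nat.mod_eq_of_lt (by omega)] at h3
    omega

/-- Even and odd positions. -/
theorem single_of_odd {G : SimpleGraph V} {w : Sym2 V → ℕ} (hG : Cubic G) (hw : IsWeight G w)
    {t : ℕ} {z : Fin (2 * t + 1) → V} (hz : OddCirc G w t z) (i : Fin (2 * t + 1))
    (hi : Odd i.val) : SingleComp G w s(z i, z (i + 1)) := by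
  have hne : ¬ Even i.val := by rwa [Nat.not_even_iff_odd]
  obtain ⟨hadj, hwt⟩ := hz.2 i
  rw [if_neg hne] at hwt
  have hlt : i.val + 1 < 2 * t + 1 := by
    obtain ⟨k, hk⟩ := hi
    omega
  have hv : (i + 1).val = i.val + 1 := by
    rw [Fin.val_add_one_of_lt' hlt]
  -- the weight one edges at both ends
  have h1 : W1 G w (z (i + 1)) (z (i + 1 + 1)) := by
    obtain ⟨a, b⟩ := hz.2 (i + 1)
    rw [if_pos (by rw [hv, Nat.even_add_one]; exact hne)] at b
    exact ⟨a, b⟩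
  have h2 : W1 G w (z i) (z (i - 1)) := by
    obtain ⟨a, b⟩ := hz.2 (i - 1)
    rw [sub_add_cancel] at a b
    have he : Even (i - 1).val := by
      have h3 : (i - 1).val + 1 = i.val := by
        have h4 : i ≠ 0 := by
          rintro rfl
          exact hne (by simp)
        have h5 : (i - 1).val + 1 < 2 * t + 1 ∨ (i - 1).val = 2 * t := by omega
        rcases h5 with h5 | h5
        · have h6 := Fin.val_add_one_of_lt' h5
          rw [sub_add_cancel] at h6
          exact h6.symm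
        · exfalso
          apply h4
          have h6 : i - 1 = Fin.last (2 * t) := Fin.ext h5
          have h7 : i = Fin.last (2 * t) + 1 := by rw [← h6, sub_add_cancel]
          rw [h7]; simp
      by_contra hcon
      rw [← h3, Nat.even_add_one, not_not] at hne
      exact hcon hne
    rw [if_pos he] at b
    exact W1_symm ⟨a, b⟩
  have h3 : W2 G w (z i) (z (i + 1)) := ⟨hadj, hwt⟩
  refine ⟨by rwa [SimpleGraph.mem_edgeSet], hwt, ?_⟩
  intro e' he' hw' v hv1 hv2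
  obtain ⟨u, rfl⟩ := Sym2.mem_iff_exists.1 hv2
  rw [SimpleGraph.mem_edgeSet] at he'
  rw [Sym2.mem_iff] at hv1
  rcases hv1 with rfl | rfl
  · rw [W2_uniq hG hw h2 ⟨he', hw'⟩ h3]
  · rw [W2_uniq hG hw h1 ⟨he', hw'⟩ (W2_symm h3), Sym2.eq_swap]

theorem two_le_of_cyc {G : SimpleGraph V} {w : Sym2 V → ℕ} (hG : Cubic G)
    (hcyc : CycConn4 G) {s t : ℕ} (hs : 1 ≤ s) (ht : 1 ≤ t) {x : Fin (2 * s + 1) → V}
    {y : Fin (2 * t + 1) → V} (hx : OddCirc G w s x) (hy : OddCirc G w t y)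
    (hd : ∀ i j, x i ≠ y j) : 2 ≤ s := by
  by_contra hcon
  have hs1 : s = 1 := by omega
  subst hs1
  have hax : ∀ i, G.Adj (x i) (x (i + 1)) := fun i => (hx.2 i).1
  have hay : ∀ i, G.Adj (y i) (y (i + 1)) := fun i => (hy.2 i).1
  refine hcyc (Set.range x) ?_ ⟨⟨circSub x hax, circSub_circuit le_rfl x hx.1 hax,
    fun _ h => h⟩, ⟨circSub y hay, circSub_circuit ht y hy.1 hay, ?_⟩⟩
  · -- each vertex of the triangle has one more neighbour
    have key : ∀ i, ∃ u, ∀ v, G.Adj (x i) v → v ∉ Set.range x → v = u := by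
      intro i
      have h1 := hG (x i)
      have h2 : ({x (i + 1), x (i - 1)} : Set V) ⊆ G.neighborSet (x i) := by
        rintro u (rfl | rfl)
        · exact hax i
        · have := hax (i - 1)
          rw [sub_add_cancel] at this
          exact this.symm
      have hne : x (i + 1) ≠ x (i - 1) := by
        have hdec : ∀ i : Fin (2 * 1 + 1), i + 1 ≠ i - 1 := by decide
        intro he
        exact hdec i (hx.1 he)
      have h3 : (G.neighborSet (x i) \ {x (i + 1), x (i - 1)}).ncard = 1 := by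
        rw [Set.ncard_diff h2, h1, Set.ncard_pair hne]
      obtain ⟨u, hu⟩ := Set.ncard_eq_one.1 h3
      refine ⟨u, fun v hv hvx => ?_⟩
      have : v ∈ G.neighborSet (x i) \ {x (i + 1), x (i - 1)} := by
        refine ⟨hv, ?_⟩
        rintro (rfl | rfl)
        · exact hvx ⟨_, rfl⟩
        · exact hvx ⟨_, rfl⟩
      rw [hu] at this
      exact this
    choose τ hτ using key
    have hsub : {e ∈ G.edgeSet | ∃ u ∈ Set.range x, ∃ v ∉ Set.range x, e = s(u, v)} ⊆
        ((univ.image fun i => s(x i, τ i) : Finset (Sym2 V)) : Set (Sym2 V)) := by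
      rintro e ⟨he, u, ⟨i, rfl⟩, v, hv, rfl⟩
      rw [SimpleGraph.mem_edgeSet] at he
      rw [coe_image, Set.mem_image]
      exact ⟨i, mem_coe.2 (mem_univ _), by rw [hτ i v he hv]⟩
    refine (Set.ncard_le_ncard hsub (Finset.finite_toSet _)).trans ?_
    rw [Set.ncard_coe_finset]
    refine card_image_le.trans ?_
    simp
  · rintro _ ⟨j, rfl⟩ ⟨i, hi⟩
    exact hd i j hi

theorem four_singles {G : SimpleGraph V} {w : Sym2 V → ℕ} (hG : Cubic G) (hw : IsWeight G w)
    {s t : ℕ} (hs : 2 ≤ s) (ht : 2 ≤ t) {x : Fin (2 * s + 1) → V}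
    {y : Fin (2 * t + 1) → V} (hx : OddCirc G w s x) (hy : OddCirc G w t y)
    (hd : ∀ i j, x i ≠ y j) : 4 ≤ {e | SingleComp G w e}.ncard := by
  have hadd : ∀ {r : ℕ} (i : Fin (2 * r + 1)), i.val + 1 < 2 * r + 1 →
      (i + 1).val = i.val + 1 := fun i h => Fin.val_add_one_of_lt' h
  set a1 : Fin (2 * s + 1) := ⟨1, by omega⟩ with ha1
  set a3 : Fin (2 * s + 1) := ⟨3, by omega⟩ with ha3
  set b1 : Fin (2 * t + 1) := ⟨1, by omega⟩ with hb1
  set b3 : Fin (2 * t + 1) := ⟨3, by omega⟩ with hb3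
  have e1 : (a1 + 1).val = 2 := hadd a1 (by rw [ha1]; simp; omega)
  have e3 : (a3 + 1).val = 4 := hadd a3 (by rw [ha3]; simp; omega)
  have f1 : (b1 + 1).val = 2 := hadd b1 (by rw [hb1]; simp; omega)
  have f3 : (b3 + 1).val = 4 := hadd b3 (by rw [hb3]; simp; omega)
  have hne : ∀ {r : ℕ} {z : Fin (2 * r + 1) → V}, Function.Injective z →
      ∀ i j i' j' : Fin (2 * r + 1), i ≠ i' → i ≠ j' → s(z i, z j) ≠ s(z i', z j') := by
    intro r z hz i j i' j' h1 h2 he
    rw [Sym2.eq_iff] at he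
    rcases he with ⟨h, -⟩ | ⟨h, -⟩
    · exact h1 (hz h)
    · exact h2 (hz h)
  have hne2 : ∀ i j i' j', s(x i, x j) ≠ s(y i', y j') := by
    intro i j i' j' he
    rw [Sym2.eq_iff] at he
    rcases he with ⟨h, -⟩ | ⟨h, -⟩
    · exact hd _ _ h
    · exact hd _ _ h
  have hx13 : s(x a1, x (a1 + 1)) ≠ s(x a3, x (a3 + 1)) := by
    refine hne hx.1 _ _ _ _ ?_ ?_
    · intro h; have := congrArg Fin.val h; simp [ha1, ha3] at this
    · intro h; have := congrArg Fin.val h; rw [e3] at this; simp [ha1] at this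
  have hy13 : s(y b1, y (b1 + 1)) ≠ s(y b3, y (b3 + 1)) := by
    refine hne hy.1 _ _ _ _ ?_ ?_
    · intro h; have := congrArg Fin.val h; simp [hb1, hb3] at this
    · intro h; have := congrArg Fin.val h; rw [f3] at this; simp [hb1] at this
  have hsub : (({s(x a1, x (a1 + 1)), s(x a3, x (a3 + 1)), s(y b1, y (b1 + 1)),
      s(y b3, y (b3 + 1))} : Finset (Sym2 V)) : Set (Sym2 V)) ⊆ {e | SingleComp G w e} := by
    intro e he
    simp only [coe_insert, coe_singleton, Set.mem_insert_iff, Set.mem_singleton_iff] at he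
    rcases he with rfl | rfl | rfl | rfl
    · exact single_of_odd hG hw hx a1 (by simp [ha1])
    · exact single_of_odd hG hw hx a3 (by rw [ha3]; exact ⟨1, rfl⟩)
    · exact single_of_odd hG hw hy b1 (by simp [hb1])
    · exact single_of_odd hG hw hy b3 (by rw [hb3]; exact ⟨1, rfl⟩)
  have hcard : ({s(x a1, x (a1 + 1)), s(x a3, x (a3 + 1)), s(y b1, y (b1 + 1)),
      s(y b3, y (b3 + 1))} : Finset (Sym2 V)).card = 4 := by
    rw [card_insert_of_notMem, card_insert_of_notMem, card_insert_of_notMem, card_singleton]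
    · rw [mem_singleton]; exact hy13
    · simp only [mem_insert, mem_singleton, not_or]
      exact ⟨hne2 _ _ _ _, hne2 _ _ _ _⟩
    · simp only [mem_insert, mem_singleton, not_or]
      exact ⟨hx13, hne2 _ _ _ _, hne2 _ _ _ _⟩
  rw [← hcard, ← Set.ncard_coe_finset]
  exact Set.ncard_le_ncard hsub (Set.toFinite _)

/-- The final form. -/
theorem final {G : SimpleGraph V} {w : Sym2 V → ℕ} (hG : Cubic G) (hc : G.Connected)
    (hb : Bridgeless G) (hw : IsWeight G w) (hno : ¬ ∃ C : G.Subgraph, Removable G w C) :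
    (∀ ρ : V, ∃ s t, 1 ≤ s ∧ 1 ≤ t ∧ (CycConn4 G → 2 ≤ s ∧ 2 ≤ t) ∧
      ∃ (x : Fin (2 * s + 1) → V) (y : Fin (2 * t + 1) → V),
      OddCirc G w s x ∧ OddCirc G w t y ∧ (∀ i j, x i ≠ y j) ∧ ∀ i, x i ≠ ρ) ∧
    (CycConn4 G → 4 ≤ {e | SingleComp G w e}.ncard) := by
  have key : ∀ ρ : V, ∃ s t, 1 ≤ s ∧ 1 ≤ t ∧ (CycConn4 G → 2 ≤ s ∧ 2 ≤ t) ∧
      ∃ (x : Fin (2 * s + 1) → V) (y : Fin (2 * t + 1) → V),
      OddCirc G w s x ∧ OddCirc G w t y ∧ (∀ i j, x i ≠ y j) ∧ ∀ i, x i ≠ ρ := by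
    intro ρ
    obtain ⟨s, t, hs, ht, x, y, hx, hy, hd, hρ⟩ := main hG hw hc hb hno ρ
    refine ⟨s, t, hs, ht, fun h => ⟨two_le_of_cyc hG h hs ht hx hy hd,
      two_le_of_cyc hG h ht hs hy hx fun i j => (hd j i).symm⟩, x, y, hx, hy, hd, hρ⟩
  refine ⟨key, fun h => ?_⟩
  obtain ⟨ρ⟩ := hc.nonempty
  obtain ⟨s, t, -, -, h2, x, y, hx, hy, hd, -⟩ := key ρ
  exact four_singles hG hw (h2 h).1 (h2 h).2 hx hy hd

end Pool.Agent.H66.GD
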