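import Pool.Agent.H66.GD.Basic

/-!
# The theorem of Kotzig on bridges
-/

namespace Pool.Agent.H66.GD

open Finset
open scoped Classical

variable {V : Type*}

/-- An alternating path inside `B` from the base `b` to `w`, ending with the edge `f w -- w`. -/
structure FP (E : V → V → Prop) (f : V → V) (B : Finset V) (b w : V) (N : V → V → Prop) :
    Prop where
  symm : ∀ u v, N u v → N v u
  sub : ∀ u v, N u v → E u v
  uniq : ∀ u v w, N u v → N u w → v = w
  supp : ∀ u v, N u v → u ∈ B
  off : ∀ v, ¬ N w v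
  clos : ∀ u v, N u v → u ≠ b → f u = w ∨ ∃ v', N (f u) v'
  base : w ≠ b → ∃ v, N b v
  fin : w ≠ b → ∃ v, N (f w) v

theorem fp_of_blo {E : V → V → Prop} {f : V → V} (hs : ∀ u v, E u v → E v u)
    (hf : ∀ v, f (f v) = v) {X : Finset V} {m : ℕ} {x : ℕ → V} (h : Blo E f X m x)
    (B : Finset V) (hB : ∀ u, u ∈ B ↔ u = f (x 0) ∨ ∃ k, 1 ≤ k ∧ k ≤ m ∧ (u = x k ∨ u = f (x k)))
    (w : V) (hw : w ∈ B) : ∃ N, FP E f B (f (x 0)) w N := by
  have hfi : ∀ a b, f a = f b → a = b := fun a b h => by rw [← hf a, h, hf]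
  have hpos := h.pos
  rw [hB] at hw
  rcases hw with rfl | ⟨k, hk1, hkm, rfl | rfl⟩
  · exact ⟨fun _ _ => False, fun _ _ h => h, fun _ _ h => h.elim, fun _ _ _ h => h.elim,
      fun _ _ h => h.elim, fun _ h => h, fun _ _ h => h.elim, fun h => absurd rfl h,
      fun h => absurd rfl h⟩
  · -- w = x k
    set y : ℕ → V := fun j => if j ≤ m then x j else f (x 0) with hy
    have hy1 : ∀ j ≤ m, y j = x j := fun j hj => by rw [hy]; simp [hj]
    have hy2 : y (m + 1) = f (x 0) := by rw [hy]; simp
    refine ⟨seg f y k (m + 1), seg_symm, ?_, ?_, ?_, ?_, ?_, ?_, ?_⟩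
    · intro u v ⟨l, a1, a2, a3⟩
      have hE : E (f (y l)) (y (l + 1)) := by
        rw [hy1 l (by omega)]
        rcases Nat.lt_or_ge l m with h' | h'
        · rw [hy1 (l + 1) (by omega)]
          exact h.edge l h'
        · have : l = m := by omega
          subst this
          rw [hy2]; exact h.last
      rcases a3 with ⟨rfl, rfl⟩ | ⟨rfl, rfl⟩
      · exact hE
      · exact hs _ _ hE
    · refine seg_uniq ?_ ?_ ?_
      · intro a b _ ha _ hb hab
        rw [hy1 a (by omega), hy1 b (by omega)] at hab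
        exact h.inj a (by omega) b (by omega) (hfi _ _ hab)
      · intro a b ha' ha hb' hb hab
        rcases Nat.lt_or_ge a m with ham | ham
        · rcases Nat.lt_or_ge b m with hbm | hbm
          · rw [hy1 (a + 1) (by omega), hy1 (b + 1) (by omega)] at hab
            have := h.inj (a + 1) (by omega) (b + 1) (by omega) hab
            omega
          · have : b = m := by omega
            subst this
            rw [hy1 (a + 1) (by omega), hy2] at hab
            exact absurd hab (h.ne _ (by omega) _ (by omega))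
        · have : a = m := by omega
          subst this
          rcases Nat.lt_or_ge b a with hbm | hbm
          · rw [hy1 (b + 1) (by omega), hy2] at hab
            exact absurd hab.symm (h.ne _ (by omega) _ (by omega))
          · omega
      · intro a b ha' ha hb' hb hab
        rw [hy1 a (by omega)] at hab
        rcases Nat.lt_or_ge b m with hbm | hbm
        · rw [hy1 (b + 1) (by omega)] at hab
          exact h.ne (b + 1) (by omega) a (by omega) hab.symm
        · have : b = m := by omega
          subst this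
          rw [hy2] at hab
          have := h.inj a (by omega) 0 (by omega) (hfi _ _ hab)
          omega
    · intro u v ⟨l, a1, a2, a3⟩
      rw [hB]
      rcases a3 with ⟨rfl, rfl⟩ | ⟨rfl, rfl⟩
      · right
        exact ⟨l, by omega, by omega, Or.inr (by rw [hy1 l (by omega)])⟩
      · rcases Nat.lt_or_ge l m with h' | h'
        · right
          exact ⟨l + 1, by omega, by omega, Or.inl (by rw [hy1 (l + 1) (by omega)])⟩
        · have : l = m := by omega
          subst this
          left; exact hy2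
    · intro v ⟨l, a1, a2, a3⟩
      rcases a3 with ⟨c, -⟩ | ⟨-, c⟩
      · rw [hy1 l (by omega)] at c
        exact h.ne k hkm l (by omega) c
      · rcases Nat.lt_or_ge l m with h' | h'
        · rw [hy1 (l + 1) (by omega)] at c
          have := h.inj k hkm (l + 1) (by omega) c
          omega
        · have : l = m := by omega
          subst this
          rw [hy2] at c
          exact h.ne k hkm 0 (by omega) c
    · intro u v ⟨l, a1, a2, a3⟩ hub
      rcases a3 with ⟨rfl, rfl⟩ | ⟨rfl, rfl⟩
      · rw [hf]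
        rcases Nat.lt_or_ge k l with h' | h'
        · right
          refine ⟨f (y (l - 1)), l - 1, by omega, by omega, Or.inr ⟨rfl, ?_⟩⟩
          rw [Nat.sub_add_cancel (by omega)]
        · left
          have : l = k := by omega
          subst this
          exact hy1 l hkm
      · rcases Nat.lt_or_ge l m with h' | h'
        · right
          exact ⟨_, l + 1, by omega, by omega, Or.inl ⟨rfl, rfl⟩⟩
        · have : l = m := by omega
          subst this
          exact absurd hy2 hub
    · intro _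
      exact ⟨f (y m), m, hkm, by omega, Or.inr ⟨rfl, hy2.symm⟩⟩
    · intro _
      exact ⟨y (k + 1), k, le_rfl, by omega, Or.inl ⟨by rw [hy1 k hkm], rfl⟩⟩
  · -- w = f (x k)
    refine ⟨seg f x 0 k, seg_symm, ?_, ?_, ?_, ?_, ?_, ?_, ?_⟩
    · intro u v ⟨l, a1, a2, a3⟩
      have hE : E (f (x l)) (x (l + 1)) := h.edge l (by omega)
      rcases a3 with ⟨rfl, rfl⟩ | ⟨rfl, rfl⟩
      · exact hE
      · exact hs _ _ hE
    · refine seg_uniq ?_ ?_ ?_
      · intro a b _ ha _ hb hab
        exact h.inj a (by omega) b (by omega) (hfi _ _ hab)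
      · intro a b _ ha _ hb hab
        have := h.inj (a + 1) (by omega) (b + 1) (by omega) hab
        omega
      · intro a b _ ha _ hb hab
        exact h.ne (b + 1) (by omega) a (by omega) hab.symm
    · intro u v ⟨l, a1, a2, a3⟩
      rw [hB]
      rcases a3 with ⟨rfl, rfl⟩ | ⟨rfl, rfl⟩
      · rcases Nat.eq_zero_or_pos l with h' | h'
        · subst h'; left; rfl
        · right; exact ⟨l, h', by omega, Or.inr rfl⟩
      · right; exact ⟨l + 1, by omega, by omega, Or.inl rfl⟩
    · intro v ⟨l, a1, a2, a3⟩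
      rcases a3 with ⟨c, -⟩ | ⟨-, c⟩
      · have := h.inj k hkm l (by omega) (hfi _ _ c)
        omega
      · exact h.ne (l + 1) (by omega) k hkm c.symm
    · intro u v ⟨l, a1, a2, a3⟩ hub
      rcases a3 with ⟨rfl, rfl⟩ | ⟨rfl, rfl⟩
      · rw [hf]
        have hl : l ≠ 0 := by
          rintro rfl
          exact hub rfl
        right
        refine ⟨f (x (l - 1)), l - 1, by omega, by omega, Or.inr ⟨rfl, ?_⟩⟩
        rw [Nat.sub_add_cancel (by omega)]
      · rcases Nat.lt_or_ge (l + 1) k with h' | h'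
        · right; exact ⟨_, l + 1, by omega, h', Or.inl ⟨rfl, rfl⟩⟩
        · left
          have : l + 1 = k := by omega
          rw [this]
    · intro _
      exact ⟨x 1, 0, le_rfl, by omega, Or.inl ⟨rfl, rfl⟩⟩
    · intro _
      refine ⟨f (x (k - 1)), k - 1, by omega, by omega, Or.inr ⟨rfl, ?_⟩⟩
      rw [hf, Nat.sub_add_cancel (by omega)]

/-- The quotient relation. -/
def quo (E : V → V → Prop) (B : Finset V) (b : V) (u v : V) : Prop :=
  u ≠ v ∧ ∃ u' v', E u' v' ∧ (if u' ∈ B then b else u') = u ∧ (if v' ∈ B then b else v') = v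

theorem alt_lift {E : V → V → Prop} {f : V → V} (hs : ∀ u v, E u v → E v u)
    (hf : ∀ v, f (f v) = v) (hn : ∀ v, f v ≠ v) {B : Finset V} {b : V} (hb : b ∈ B)
    (hbB : ∀ u ∈ B, u ≠ b → f u ∈ B) (hfb : f b ∉ B)
    (hfl : ∀ w ∈ B, ∃ N, FP E f B b w N) {N' : V → V → Prop} (h : Alt (quo E B b) f N') :
    ∃ N, Alt E f N := by
  -- support of `N'`
  have hsB : ∀ u v, N' u v → u ∈ B → u = b := by
    intro u v huv hu
    obtain ⟨-, u', v', -, h1, -⟩ := h.sub u v huv
    by_cases hu' : u' ∈ B
    · rw [if_pos hu'] at h1; exact h1.symm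
    · rw [if_neg hu'] at h1; rw [h1] at hu'; exact absurd hu hu'
  have hEE : ∀ u v, N' u v → u ≠ b → v ≠ b → E u v := by
    intro u v huv hu hv
    obtain ⟨-, u', v', hE, h1, h2⟩ := h.sub u v huv
    by_cases hu' : u' ∈ B
    · rw [if_pos hu'] at h1; exact absurd h1.symm hu
    · rw [if_neg hu'] at h1
      by_cases hv' : v' ∈ B
      · rw [if_pos hv'] at h2; exact absurd h2.symm hv
      · rw [if_neg hv'] at h2
        rw [← h1, ← h2]; exact hE
  by_cases hby : ∃ y, N' b y
  · obtain ⟨y, hy⟩ := hby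
    obtain ⟨hyb, u', v', hE, h1, h2⟩ := h.sub b y hy
    have hyB : y ∉ B := fun hyB => hyb (hsB y b (h.symm _ _ hy) hyB).symm
    have hv' : v' = y := by
      by_cases hv' : v' ∈ B
      · rw [if_pos hv'] at h2; exact absurd h2 hyb
      · rw [if_neg hv'] at h2; exact h2
    have hu' : u' ∈ B := by
      by_contra hu'
      rw [if_neg hu'] at h1
      rw [h1] at hu'; exact hu' hb
    subst hv'
    obtain ⟨M, hM⟩ := hfl u' hu'
    have hMs := hM.supp
    -- the lifted set
    refine ⟨fun u v => (N' u v ∧ u ≠ b ∧ v ≠ b) ∨ (u = u' ∧ v = v') ∨ (u = v' ∧ v = u') ∨ M u v,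
      ?_, ?_, ?_, ?_, ?_⟩
    · rintro u v (⟨c1, c2, c3⟩ | ⟨rfl, rfl⟩ | ⟨rfl, rfl⟩ | c)
      · exact Or.inl ⟨h.symm _ _ c1, c3, c2⟩
      · exact Or.inr (Or.inr (Or.inl ⟨rfl, rfl⟩))
      · exact Or.inr (Or.inl ⟨rfl, rfl⟩)
      · exact Or.inr (Or.inr (Or.inr (hM.symm _ _ c)))
    · rintro u v (⟨c1, c2, c3⟩ | ⟨rfl, rfl⟩ | ⟨rfl, rfl⟩ | c)
      · exact hEE u v c1 c2 c3
      · exact hE
      · exact hs _ _ hE
      · exact hM.sub _ _ c
    · -- uniqueness
      have hA : ∀ u v w, (N' u v ∧ u ≠ b ∧ v ≠ b) → M u w → False := by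
        intro u v w c1 c2
        exact c1.2.1 (hsB u v c1.1 (hMs _ _ c2))
      have hA2 : ∀ u v, (N' u v ∧ u ≠ b ∧ v ≠ b) → u ≠ u' := by
        rintro u v c1 rfl
        exact c1.2.1 (hsB u v c1.1 hu')
      have hA3 : ∀ u v, (N' u v ∧ u ≠ b ∧ v ≠ b) → u ≠ v' := by
        rintro u v c1 rfl
        exact c1.2.2 (h.uniq _ _ _ c1.1 (h.symm _ _ hy))
      have huv : u' ≠ v' := fun he => hyB (he ▸ hu')
      rintro u v w (c1 | ⟨rfl, rfl⟩ | ⟨rfl, rfl⟩ | c) (d1 | ⟨e, rfl⟩ | ⟨e, rfl⟩ | d)
      · exact h.uniq _ _ _ c1.1 d1.1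
      · exact absurd e (hA2 _ _ c1)
      · exact absurd e (hA3 _ _ c1)
      · exact (hA _ _ _ c1 d).elim
      · exact absurd rfl (hA2 _ _ d1)
      · rfl
      · exact absurd e huv
      · exact absurd d (hM.off _)
      · exact absurd rfl (hA3 _ _ d1)
      · exact absurd e.symm huv
      · rfl
      · exact absurd (hMs _ _ d) hyB
      · exact (hA _ _ _ d1 c).elim
      · subst e; exact absurd c (hM.off _)
      · subst e; exact absurd (hMs _ _ c) hyB
      · exact hM.uniq _ _ _ c d
    · -- closure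
      have hbs : ∃ w, (N' b w ∧ b ≠ b ∧ w ≠ b) ∨ (b = u' ∧ w = v') ∨ (b = v' ∧ w = u') ∨ M b w := by
        by_cases hub : u' = b
        · exact ⟨v', Or.inr (Or.inl ⟨hub.symm, rfl⟩)⟩
        · obtain ⟨w, hw⟩ := hM.base hub
          exact ⟨w, Or.inr (Or.inr (Or.inr hw))⟩
      have hfbs : ∃ w, (N' (f b) w ∧ f b ≠ b ∧ w ≠ b) ∨ (f b = u' ∧ w = v') ∨
          (f b = v' ∧ w = u') ∨ M (f b) w := by
        by_cases hyf : v' = f b
        · exact ⟨u', Or.inr (Or.inr (Or.inl ⟨hyf.symm, rfl⟩))⟩
        · obtain ⟨w, hw⟩ := h.clos _ _ hy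
          refine ⟨w, Or.inl ⟨hw, hn b, ?_⟩⟩
          rintro rfl
          exact hyf (h.uniq _ _ _ hy (h.symm _ _ hw))
      rintro u v (c1 | ⟨rfl, rfl⟩ | ⟨rfl, rfl⟩ | c)
      · by_cases hfu : f u = b
        · rw [hfu]; exact hbs
        · obtain ⟨w, hw⟩ := h.clos _ _ c1.1
          by_cases hwb : w = b
          · subst hwb
            have : f u = v' := h.uniq _ _ _ (h.symm _ _ hw) hy
            exact ⟨u', Or.inr (Or.inr (Or.inl ⟨this, rfl⟩))⟩
          · exact ⟨w, Or.inl ⟨hw, hfu, hwb⟩⟩
      · by_cases hub : u = b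
        · subst hub; exact hfbs
        · obtain ⟨w, hw⟩ := hM.fin hub
          exact ⟨w, Or.inr (Or.inr (Or.inr hw))⟩
      · by_cases hfu : f u = b
        · rw [hfu]; exact hbs
        · obtain ⟨w, hw⟩ := h.clos _ _ (h.symm _ _ hy)
          by_cases hwb : w = b
          · subst hwb
            have : f u = u := h.uniq _ _ _ (h.symm _ _ hw) hy
            exact absurd this (hn u)
          · exact ⟨w, Or.inl ⟨hw, hfu, hwb⟩⟩
      · by_cases hub : u = b
        · subst hub; exact hfbs
        · rcases hM.clos _ _ c hub with h' | ⟨w, hw⟩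
          · exact ⟨v', Or.inr (Or.inl ⟨h', rfl⟩)⟩
          · exact ⟨w, Or.inr (Or.inr (Or.inr hw))⟩
    · exact ⟨u', v', Or.inr (Or.inl ⟨rfl, rfl⟩)⟩
  · push Not at hby
    refine ⟨N', h.symm, ?_, h.uniq, h.clos, h.ne⟩
    intro u v huv
    refine hEE u v huv ?_ ?_
    · rintro rfl; exact hby _ huv
    · rintro rfl; exact hby _ (h.symm _ _ huv)

variable [Fintype V]

/-- Kotzig's theorem in set form: without alternating circuits there is a bridge `p -- f p`. -/
theorem kotzig {f : V → V} (hf : ∀ v, f (f v) = v) (hn : ∀ v, f v ≠ v) (n : ℕ) :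
    ∀ (Y : Finset V) (E : V → V → Prop), Y.card ≤ n → Y.Nonempty → (∀ y ∈ Y, f y ∈ Y) →
    (∀ u v, E u v → E v u) → (∀ v, ¬ E v v) → (∀ u v, E u v → u ∈ Y) →
    (¬ ∃ N, Alt E f N) →
    ∃ A, A ⊆ Y ∧ ∃ p ∈ A, f p ∉ A ∧ (∀ a ∈ A, a ≠ p → f a ∈ A) ∧
      ∀ a ∈ A, ∀ c, c ∉ A → ¬ E a c := by
  induction n with
  | zero =>
    intro Y E hc hne
    rw [Nat.le_zero, card_eq_zero] at hc
    exact absurd hc (nonempty_iff_ne_empty.1 hne)
  | succ n ih =>
    intro Y E hc hne hfY hs hi hsup hno
    obtain ⟨s, hsY⟩ := hne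
    by_cases hstep : ∀ a ∈ Y, ∃ z, E (f a) z
    · have hcl := closing hs hi hf hn Y s hsY
        (fun a ha => by
          obtain ⟨z, hz⟩ := hstep a ha
          exact ⟨z, hz, Or.inl (hsup _ _ (hs _ _ hz))⟩) hno
      obtain ⟨m, x, hx⟩ := hcl
      have hfi : ∀ a b, f a = f b → a = b := fun a b h => by rw [← hf a, h, hf]
      set B : Finset V := Y.filter fun u =>
        u = f (x 0) ∨ ∃ k, 1 ≤ k ∧ k ≤ m ∧ (u = x k ∨ u = f (x k)) with hBdef
      have hB : ∀ u, u ∈ B ↔ u = f (x 0) ∨ ∃ k, 1 ≤ k ∧ k ≤ m ∧ (u = x k ∨ u = f (x k)) := by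
        intro u
        rw [hBdef, mem_filter]
        refine ⟨fun h => h.2, fun h => ⟨?_, h⟩⟩
        rcases h with rfl | ⟨k, hk1, hk2, rfl | rfl⟩
        · exact hfY _ (hx.mem 0 (by omega))
        · exact hx.mem k hk2
        · exact hfY _ (hx.mem k hk2)
      have hBY : B ⊆ Y := filter_subset _ _
      set b := f (x 0) with hbdef
      have hb : b ∈ B := (hB b).2 (Or.inl rfl)
      have hfl : ∀ w ∈ B, ∃ N, FP E f B b w N := fun w hw => fp_of_blo hs hf hx B hB w hw
      have hfb : f b ∉ B := by
        rw [hB, hbdef, hf]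
        rintro (h | ⟨k, hk1, hk2, h | h⟩)
        · exact hn (x 0) h.symm
        · have := hx.inj 0 (by omega) k hk2 h
          omega
        · exact hx.ne 0 (by omega) k hk2 h
      have hbB : ∀ u ∈ B, u ≠ b → f u ∈ B := by
        intro u hu hub
        rw [hB] at hu ⊢
        rcases hu with h | ⟨k, hk1, hk2, rfl | rfl⟩
        · exact absurd h hub
        · exact Or.inr ⟨k, hk1, hk2, Or.inr rfl⟩
        · exact Or.inr ⟨k, hk1, hk2, Or.inl (hf _)⟩
      have hx1 : x 1 ∈ B := (hB _).2 (Or.inr ⟨1, le_rfl, hx.pos, Or.inl rfl⟩)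
      have hx1b : x 1 ≠ b := hx.ne 1 hx.pos 0 (by omega)
      -- the contracted system
      set Y' : Finset V := Y.filter fun u => u ∈ B → u = b with hY'def
      have hY' : ∀ u, u ∈ Y' ↔ u ∈ Y ∧ (u ∈ B → u = b) := fun u => by rw [hY'def, mem_filter]
      have hcard : Y'.card ≤ n := by
        have hss : Y' ⊂ Y := by
          refine ⟨filter_subset _ _, fun hsub => ?_⟩
          have := hsub (hBY hx1)
          rw [hY'] at this
          exact hx1b (this.2 hx1)
        have := card_lt_card hss
        omega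
      have hbY' : b ∈ Y' := (hY' b).2 ⟨hBY hb, fun _ => rfl⟩
      have hfY' : ∀ y ∈ Y', f y ∈ Y' := by
        intro y hy
        rw [hY'] at hy ⊢
        refine ⟨hfY y hy.1, fun hfy => ?_⟩
        by_contra hne'
        have h1 := hbB _ hfy hne'
        rw [hf] at h1
        have h2 := hy.2 h1
        rw [h2] at hfy
        exact hfb hfy
      have hpiY' : ∀ u ∈ Y, (if u ∈ B then b else u) ∈ Y' := by
        intro u hu
        by_cases h : u ∈ B
        · rw [if_pos h]; exact hbY'
        · rw [if_neg h, hY']; exact ⟨hu, fun h' => absurd h' h⟩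
      have hqs : ∀ u v, quo E B b u v → quo E B b v u := by
        rintro u v ⟨h0, u', v', h1, h2, h3⟩
        exact ⟨h0.symm, v', u', hs _ _ h1, h3, h2⟩
      obtain ⟨A', hA'Y, p, hpA, hfp, hcl, hed⟩ := ih Y' (quo E B b) hcard ⟨b, hbY'⟩ hfY' hqs
        (fun v h => h.1 rfl)
        (fun u v ⟨_, u', v', h1, h2, _⟩ => by rw [← h2]; exact hpiY' _ (hsup _ _ h1))
        (fun ⟨N', hN'⟩ => hno (alt_lift hs hf hn hb hbB hfb hfl hN'))
      have hpY' := hA'Y hpA
      have hfpY' := hfY' p hpY'
      by_cases hbA : b ∈ A'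
      · refine ⟨A' ∪ B, union_subset (hA'Y.trans (filter_subset _ _)) hBY, p,
          mem_union_left _ hpA, ?_, ?_, ?_⟩
        · intro h
          rcases mem_union.1 h with h | h
          · exact hfp h
          · have := ((hY' _).1 hfpY').2 h
            rw [this] at hfp
            exact hfp hbA
        · intro a ha hap
          rcases mem_union.1 ha with h | h
          · exact mem_union_left _ (hcl a h hap)
          · by_cases hab : a = b
            · subst hab
              exact mem_union_left _ (hcl _ hbA hap)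
            · exact mem_union_right _ (hbB a h hab)
        · intro a ha c hc' hE
          rw [mem_union, not_or] at hc'
          have hpa : (if a ∈ B then b else a) ∈ A' := by
            by_cases h : a ∈ B
            · rw [if_pos h]; exact hbA
            · rw [if_neg h]
              rcases mem_union.1 ha with h' | h'
              · exact h'
              · exact absurd h' h
          refine hed _ hpa c hc'.1 ⟨?_, a, c, hE, rfl, if_neg hc'.2⟩
          intro he
          rw [he] at hpa
          exact hc'.1 hpa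
      · refine ⟨A', hA'Y.trans (filter_subset _ _), p, hpA, hfp, hcl, ?_⟩
        intro a ha c hc' hE
        have haB : a ∉ B := by
          intro h
          have := ((hY' _).1 (hA'Y ha)).2 h
          rw [this] at ha
          exact hbA ha
        have hpc : (if c ∈ B then b else c) ∉ A' := by
          by_cases h : c ∈ B
          · rw [if_pos h]; exact hbA
          · rw [if_neg h]; exact hc'
        refine hed a ha _ hpc ⟨?_, a, c, hE, if_neg haB, rfl⟩
        intro he
        rw [← he] at hpc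
        exact hpc ha
    · push Not at hstep
      obtain ⟨a, haY, ha⟩ := hstep
      refine ⟨{f a}, by simpa using hfY a haY, f a, mem_singleton_self _, ?_, ?_, ?_⟩
      · rw [hf, mem_singleton]; exact (hn a).symm
      · intro c hc' hne'
        exact absurd (mem_singleton.1 hc') hne'
      · intro c hc' d _ hE
        rw [mem_singleton] at hc'
        subst hc'
        exact ha d hE

end Pool.Agent.H66.GD
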