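import Pool.Agent.H66.GD.LemA

/-!
# The structure of a leaf
-/

namespace Pool.Agent.H66.GD

open Finset
open scoped Classical

variable {V : Type*} [Fintype V]

/-- The edges of `F` off `N`. -/
def F0 (F N : V → V → Prop) (u v : V) : Prop := F u v ∧ ¬ N u v

theorem F0_symm {F : V → V → Prop} {f : V → V} (S : Sys F f) {N : V → V → Prop}
    (hN : ∀ u v, N u v → N v u) (u v : V) (h : F0 F N u v) : F0 F N v u :=
  ⟨S.symm _ _ h.1, fun h' => h.2 (hN _ _ h')⟩

theorem F0_deg {F : V → V → Prop} {f : V → V} (S : Sys F f) {N : V → V → Prop} (hN : Alt F f N)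
    (u : V) : ct (F0 F N) {u} univ = if ∃ w, N u w then 1 else 2 := degF0 S hN u

theorem F0_ex {F : V → V → Prop} {f : V → V} (S : Sys F f) {N : V → V → Prop} (hN : Alt F f N)
    (u : V) : ∃ z, F0 F N u z := by
  have h : 1 ≤ ct (F0 F N) {u} univ := by
    rw [F0_deg S hN]
    split_ifs <;> omega
  obtain ⟨a, ha, b, -, hab⟩ := ct_pos.1 h
  rw [mem_singleton] at ha
  subst ha
  exact ⟨b, hab⟩

theorem F0_uniq {F : V → V → Prop} {f : V → V} (S : Sys F f) {N : V → V → Prop} (hN : Alt F f N)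
    {u : V} (hu : ∃ w, N u w) {z z' : V} (h : F0 F N u z) (h' : F0 F N u z') : z = z' := by
  have h1 : ct (F0 F N) {u} univ ≤ 1 := by rw [F0_deg S hN, if_pos hu]
  exact (ct_le_one h1 (mem_singleton_self _) (mem_univ _) h (mem_singleton_self _)
    (mem_univ _) h').2

/-- One side of a bridge. -/
theorem side {F : V → V → Prop} {f : V → V} (S : Sys F f) {N : V → V → Prop} (hN : Alt F f N)
    (A : Finset V) (p : V) (hp : p ∈ A) (hfp : f p ∉ A) (hcl : ∀ a ∈ A, a ≠ p → f a ∈ A)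
    (h1 : ct (F0 F N) A Aᶜ = 1)
    (hcut : ∀ A', A' ⊆ A → A'.Nonempty → 2 ≤ ct (GN F f N) A' A'ᶜ)
    (ih : (∀ y ∈ A \ {p}, f y ∈ A \ {p}) → ct (F0 F N) (A \ {p}) (A \ {p})ᶜ = 2 →
      ∀ u ∈ A \ {p}, ∃ w, N u w) : ∀ u ∈ A, ∃ w, N u w := by
  have hs0 := F0_symm S hN.symm
  set Y := A \ {p} with hY
  have hYcl : ∀ y ∈ Y, f y ∈ Y := by
    intro y hy
    rw [hY, mem_sdiff, mem_singleton] at hy ⊢
    refine ⟨hcl y hy.1 hy.2, ?_⟩
    rintro he
    apply hfp
    rw [← he, S.inv]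
    exact hy.1
  have hdY : Disjoint {p} Y := by rw [hY]; exact disjoint_sdiff
  have hAe : A = {p} ∪ Y := by
    rw [hY, union_sdiff_of_subset (singleton_subset_iff.2 hp)]
  -- degrees
  have e1 : ct (F0 F N) {p} univ = ct (F0 F N) {p} Y + ct (F0 F N) {p} Aᶜ := by
    rw [ct_compl (E := F0 F N) {p} A, hAe, ct_union_right _ hdY]
    have : ct (F0 F N) {p} {p} = 0 := by
      rw [ct_eq_zero]
      intro a ha b hb h
      rw [mem_singleton] at ha hb
      subst ha; subst hb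
      exact S.irr _ h.1
    rw [this]
    ring
  have e2 : ct (F0 F N) {p} Aᶜ + ct (F0 F N) Y Aᶜ = 1 := by
    rw [← ct_union_left hdY, ← hAe, h1]
  have e3 : Yᶜ = {p} ∪ Aᶜ := by
    ext z
    simp only [hY, mem_compl, mem_sdiff, mem_union, mem_singleton]
    tauto
  have e4 : Disjoint {p} Aᶜ := by
    rw [disjoint_singleton_left, mem_compl, not_not]
    exact hp
  have e5 : ct (F0 F N) Y Yᶜ = ct (F0 F N) {p} Y + ct (F0 F N) Y Aᶜ := by
    rw [e3, ct_union_right _ e4, ct_comm hs0 Y {p}]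
  have e6 := par S hN Y hYcl
  have e7 : ct (fun a b => F a b ∧ ¬ N a b) Y Yᶜ = ct (F0 F N) Y Yᶜ := rfl
  rw [e7, e5] at e6
  have hps : ∃ w, N p w := by
    by_contra hcon
    have e8 := F0_deg S hN p
    rw [if_neg hcon] at e8
    rw [Nat.even_iff] at e6
    omega
  have e8 := F0_deg S hN p
  rw [if_pos hps] at e8
  intro u hu
  by_cases hup : u = p
  · rw [hup]; exact hps
  · have huY : u ∈ Y := by rw [hY, mem_sdiff, mem_singleton]; exact ⟨hu, hup⟩
    have e9 := hcut Y (by rw [hY]; exact sdiff_subset) ⟨u, huY⟩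
    have e10 : ct (GN F f N) Y Yᶜ ≤ ct (F0 F N) Y Yᶜ := by
      refine ct_mono (Subset.refl _) (Subset.refl _) fun a ha b hb h => ?_
      rcases h with h | h
      · rw [mem_compl, h] at hb
        exact absurd (hYcl a ha) hb
      · exact h
    rw [Nat.even_iff] at e6
    exact ih hYcl (by omega) u huY

theorem lemP {F : V → V → Prop} {f : V → V} (S : Sys F f) {N : V → V → Prop} (hN : Alt F f N)
    (n : ℕ) : ∀ Y : Finset V, Y.card ≤ n → (∀ y ∈ Y, f y ∈ Y) → (¬ ∃ D, Alt (res F Y) f D) →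
    (∀ A, A ⊆ Y → A.Nonempty → 2 ≤ ct (GN F f N) A Aᶜ) → ct (F0 F N) Y Yᶜ = 2 →
    ∀ u ∈ Y, ∃ w, N u w := by
  induction n with
  | zero =>
    intro Y hc _ _ _ _ u hu
    rw [Nat.le_zero, card_eq_zero] at hc
    rw [hc] at hu
    exact absurd hu (notMem_empty _)
  | succ n ih =>
    intro Y hc hcl hfree hcut h2 u hu
    have hs0 := F0_symm S hN.symm
    have hfree0 : ¬ ∃ D, Alt (fun a b => F0 F N a b ∧ a ∈ Y ∧ b ∈ Y) f D := by
      rintro ⟨D, hD⟩
      exact hfree ⟨D, hD.symm, fun u v h => ⟨(hD.sub _ _ h).1.1, (hD.sub _ _ h).2.1,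
        (hD.sub _ _ h).2.2⟩, hD.uniq, hD.clos, hD.ne⟩
    obtain ⟨A, hAY, p, hp, hfp, hAcl, hed⟩ := kotzig S.inv S.ne Y.card Y
      (fun a b => F0 F N a b ∧ a ∈ Y ∧ b ∈ Y) le_rfl ⟨u, hu⟩ hcl
      (fun a b h => ⟨hs0 _ _ h.1, h.2.2, h.2.1⟩) (fun v h => S.irr v h.1.1)
      (fun a b h => h.2.1) hfree0
    -- the other side
    set A' := Y \ A with hA'
    have hfpY : f p ∈ A' := mem_sdiff.2 ⟨hcl p (hAY hp), hfp⟩
    have hffp : f (f p) ∉ A' := by
      rw [S.inv, hA', mem_sdiff]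
      exact fun h => h.2 hp
    have hA'cl : ∀ a ∈ A', a ≠ f p → f a ∈ A' := by
      intro a ha hne
      rw [hA', mem_sdiff] at ha ⊢
      refine ⟨hcl a ha.1, fun h => ?_⟩
      by_cases hap : f a = p
      · apply hne
        rw [← hap, S.inv]
      · have := hAcl _ h hap
        rw [S.inv] at this
        exact ha.2 this
    have hAA' : ct (F0 F N) A A' = 0 := by
      rw [ct_eq_zero]
      intro a ha b hb h
      rw [hA', mem_sdiff] at hb
      exact hed a ha b hb.2 ⟨h, hAY ha, hb.1⟩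
    have hdA : Disjoint A A' := by rw [hA']; exact disjoint_sdiff
    have hYe : Y = A ∪ A' := by rw [hA', union_sdiff_of_subset hAY]
    have e1 : Aᶜ = A' ∪ Yᶜ := by
      ext z
      simp only [hA', mem_compl, mem_union, mem_sdiff]
      constructor
      · intro h
        by_cases hz : z ∈ Y
        · exact Or.inl ⟨hz, h⟩
        · exact Or.inr hz
      · rintro (h | h)
        · exact h.2
        · exact fun h' => h (hAY h')
    have e2 : A'ᶜ = A ∪ Yᶜ := by
      ext z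
      simp only [hA', mem_compl, mem_union, mem_sdiff]
      constructor
      · intro h
        by_cases hz : z ∈ A
        · exact Or.inl hz
        · exact Or.inr fun h' => h ⟨h', hz⟩
      · rintro (h | h)
        · exact fun h' => h'.2 h
        · exact fun h' => h h'.1
    have hdY : Disjoint A' Yᶜ :=
      disjoint_of_subset_left sdiff_subset disjoint_compl_right
    have hdY' : Disjoint A Yᶜ := disjoint_of_subset_left hAY disjoint_compl_right
    have e3 : ct (F0 F N) A Aᶜ = ct (F0 F N) A Yᶜ := by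
      rw [e1, ct_union_right _ hdY, hAA']; ring
    have e4 : ct (F0 F N) A' A'ᶜ = ct (F0 F N) A' Yᶜ := by
      rw [e2, ct_union_right _ hdY', ct_comm hs0 A' A, hAA']; ring
    have e5 : ct (F0 F N) A Yᶜ + ct (F0 F N) A' Yᶜ = 2 := by
      rw [← ct_union_left hdA, ← hYe, h2]
    -- each side has at least one edge
    have key : ∀ (A : Finset V) (p : V), (∀ a ∈ A, a ≠ p → f a ∈ A) →
        2 ≤ ct (GN F f N) A Aᶜ → 1 ≤ ct (F0 F N) A Aᶜ := by
      intro A p hcl' h3
      by_contra hcon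
      have h4 : ct (F0 F N) A Aᶜ = 0 := by omega
      rw [ct_eq_zero] at h4
      rw [ct_eq_card] at h3
      obtain ⟨x, hx, y, hy, hxy⟩ := one_lt_card.1 (show 1 < _ from h3)
      have key : ∀ x ∈ (A ×ˢ Aᶜ).filter fun q => GN F f N q.1 q.2, x = (p, f p) := by
        intro x hx
        rw [mem_filter, mem_product, mem_compl] at hx
        rcases hx.2 with h | h
        · have h5 : x.1 = p := by
            by_contra hne
            exact hx.1.2 (h ▸ hcl' _ hx.1.1 hne)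
          exact Prod.ext h5 (by rw [h, h5])
        · exact absurd h (h4 _ hx.1.1 _ (mem_compl.2 hx.1.2))
      exact hxy ((key x hx).trans (key y hy).symm)
    have h3 := key A p hAcl (hcut A hAY ⟨p, hp⟩)
    have h4 := key A' (f p) hA'cl (hcut A' sdiff_subset ⟨_, hfpY⟩)
    have hsm : ∀ (Z : Finset V) (q : V), q ∈ Z → Z ⊆ Y → (Z \ {q}).card ≤ n := by
      intro Z q hq hZ
      have h5 : (Z \ {q}) ⊂ Z :=
        ⟨sdiff_subset, fun h => (mem_sdiff.1 (h hq)).2 (mem_singleton_self _)⟩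
      have h6 := card_lt_card h5
      have h7 := card_le_card hZ
      omega
    have hgo : ∀ (Z : Finset V) (q : V), q ∈ Z → f q ∉ Z → Z ⊆ Y →
        (∀ a ∈ Z, a ≠ q → f a ∈ Z) → ct (F0 F N) Z Zᶜ = 1 → ∀ u ∈ Z, ∃ w, N u w := by
      intro Z q hq hfq hZ hZcl h5
      refine side S hN Z q hq hfq hZcl h5 (fun A' hA' hn => hcut A' (hA'.trans hZ) hn) ?_
      intro h6 h7
      exact ih (Z \ {q}) (hsm Z q hq hZ) h6
        (fun ⟨D, hD⟩ => hfree ⟨D, hD.res_mono (sdiff_subset.trans hZ)⟩)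
        (fun A' hA' hn => hcut A' (hA'.trans (sdiff_subset.trans hZ)) hn) h7
    rw [hYe] at hu
    rcases mem_union.1 hu with h | h
    · exact hgo A p hp hfp hAY hAcl (by omega) u h
    · exact hgo A' (f p) hfpY hffp sdiff_subset hA'cl (by omega) u h

/-- The properties of a leaf. -/
structure LeafP (F : V → V → Prop) (f : V → V) (N : V → V → Prop) (L : Finset V) (v : V) :
    Prop where
  mem : v ∈ L
  out : f v ∉ L
  clos : ∀ u ∈ L, u ≠ v → f u ∈ L
  inn : ∀ u ∈ L, ∀ w, F0 F N u w → w ∈ L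
  off : ¬ ∃ w, N v w
  on : ∀ u ∈ L, u ≠ v → ∃ w, N u w

theorem leaf {F : V → V → Prop} {f : V → V} (S : Sys F f) {N : V → V → Prop} (hN : Alt F f N)
    (L : Finset V) (hL : L.Nonempty) (hT : TEC (GN F f N) L) (h1 : ct (GN F f N) L Lᶜ ≤ 1)
    (hfree : ¬ ∃ D, Alt (res F L) f D) : ∃ v, LeafP F f N L v := by
  have hs0 := F0_symm S hN.symm
  have hinn : ∀ u ∈ L, ∀ w, F0 F N u w → w ∈ L := by
    intro u hu w huw
    by_contra hw
    have hcl : ∀ a ∈ L, f a ∈ L := by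
      intro a ha
      by_contra hfa
      obtain ⟨e1, e2⟩ := ct_le_one h1 ha (mem_compl.2 hfa) (Or.inl rfl) hu (mem_compl.2 hw)
        (Or.inr huw)
      rw [← e1, ← e2] at huw
      exact S.nF _ huw.1
    have h3 := par S hN L hcl
    have h4 : ct (fun a b => F a b ∧ ¬ N a b) L Lᶜ ≤ ct (GN F f N) L Lᶜ :=
      ct_mono (Subset.refl _) (Subset.refl _) fun a _ b _ h => Or.inr h
    have h5 : 1 ≤ ct (fun a b => F a b ∧ ¬ N a b) L Lᶜ :=
      ct_pos.2 ⟨u, hu, w, mem_compl.2 hw, huw⟩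
    have h6 : ct (fun a b => F a b ∧ ¬ N a b) L Lᶜ = 1 := by omega
    rw [h6] at h3
    exact absurd h3 (by decide)
  have hout : ∃ v ∈ L, f v ∉ L := by
    by_contra hcon
    push Not at hcon
    have hfree0 : ¬ ∃ D, Alt (fun a b => F0 F N a b ∧ a ∈ L ∧ b ∈ L) f D := by
      rintro ⟨D, hD⟩
      exact hfree ⟨D, hD.symm, fun u v h => ⟨(hD.sub _ _ h).1.1, (hD.sub _ _ h).2.1,
        (hD.sub _ _ h).2.2⟩, hD.uniq, hD.clos, hD.ne⟩
    obtain ⟨A, hAY, p, hp, hfp, hAcl, hed⟩ := kotzig S.inv S.ne L.card L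
      (fun a b => F0 F N a b ∧ a ∈ L ∧ b ∈ L) le_rfl hL hcon
      (fun a b h => ⟨hs0 _ _ h.1, h.2.2, h.2.1⟩) (fun v h => S.irr v h.1.1)
      (fun a b h => h.2.1) hfree0
    have h3 := hT A hAY ⟨p, hp⟩ (fun he => hfp (he ▸ hcon p (hAY hp)))
    rw [ct_eq_card] at h3
    obtain ⟨x, hx, y, hy, hxy⟩ := one_lt_card.1 (show 1 < _ from h3)
    have key : ∀ x ∈ (A ×ˢ (L \ A)).filter fun q => GN F f N q.1 q.2, x = (p, f p) := by
      intro x hx
      rw [mem_filter, mem_product, mem_sdiff] at hx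
      rcases hx.2 with h | h
      · have h5 : x.1 = p := by
          by_contra hne
          exact hx.1.2.2 (h ▸ hAcl _ hx.1.1 hne)
        exact Prod.ext h5 (by rw [h, h5])
      · exact absurd ⟨h, hAY hx.1.1, hx.1.2.1⟩ (hed _ hx.1.1 _ hx.1.2.2)
    exact hxy ((key x hx).trans (key y hy).symm)
  obtain ⟨v, hv, hfv⟩ := hout
  have hcl : ∀ u ∈ L, u ≠ v → f u ∈ L := by
    intro u hu hne
    by_contra hfu
    exact hne (ct_le_one h1 hu (mem_compl.2 hfu) (Or.inl rfl) hv (mem_compl.2 hfv)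
      (Or.inl rfl)).1
  -- `L` has more than one vertex
  have hLv : L ≠ {v} := by
    intro he
    obtain ⟨z, hz⟩ := F0_ex S hN v
    have := hinn v hv z hz
    rw [he, mem_singleton] at this
    rw [this] at hz
    exact S.irr _ hz.1
  have hoff : ¬ ∃ w, N v w := by
    intro hvw
    have h3 := hT {v} (singleton_subset_iff.2 hv) ⟨v, mem_singleton_self _⟩ hLv.symm
    have h4 : ct (GN F f N) {v} (L \ {v}) ≤ ct (F0 F N) {v} univ := by
      refine ct_mono (Subset.refl _) (subset_univ _) fun a ha b hb h => ?_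
      rcases h with h | h
      · rw [mem_singleton] at ha
        rw [mem_sdiff, h, ha] at hb
        exact absurd hb.1 hfv
      · exact h
    rw [F0_deg S hN, if_pos hvw] at h4
    omega
  -- the rest
  set Y := L \ {v} with hY
  have hYL : Y ⊆ L := sdiff_subset
  have hYcl : ∀ y ∈ Y, f y ∈ Y := by
    intro y hy
    rw [hY, mem_sdiff, mem_singleton] at hy ⊢
    refine ⟨hcl y hy.1 hy.2, ?_⟩
    rintro he
    apply hfv
    rw [← he, S.inv]
    exact hy.1
  have hcut : ∀ A, A ⊆ Y → A.Nonempty → 2 ≤ ct (GN F f N) A Aᶜ := by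
    intro A hA hn
    have hne : A ≠ L := by
      rintro rfl
      have := hA hv
      rw [hY, mem_sdiff] at this
      exact this.2 (mem_singleton_self _)
    refine (hT A (hA.trans hYL) hn hne).trans
      (ct_mono (Subset.refl _) ?_ fun _ _ _ _ h => h)
    intro z hz
    exact mem_compl.2 (mem_sdiff.1 hz).2
  have h2 : ct (F0 F N) Y Yᶜ = 2 := by
    have e1 : Yᶜ = {v} ∪ Lᶜ := by
      ext z
      simp only [hY, mem_compl, mem_sdiff, mem_union, mem_singleton]
      tauto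
    have e2 : Disjoint {v} Lᶜ := by
      rw [disjoint_singleton_left, mem_compl, not_not]
      exact hv
    have e3 : ct (F0 F N) Y Lᶜ = 0 := by
      rw [ct_eq_zero]
      intro a ha b hb h
      exact (mem_compl.1 hb) (hinn a (hYL ha) b h)
    rw [e1, ct_union_right _ e2, e3, ct_comm hs0 Y {v}, add_zero]
    have e4 := ct_compl (E := F0 F N) {v} Y
    rw [F0_deg S hN, if_neg hoff] at e4
    have e5 : ct (F0 F N) {v} Yᶜ = 0 := by
      rw [ct_eq_zero]
      intro a ha b hb h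
      rw [mem_singleton] at ha
      subst ha
      rw [mem_compl, hY, mem_sdiff, mem_singleton, not_and, not_not] at hb
      have := hb (hinn _ hv b h)
      rw [this] at h
      exact S.irr _ h.1
    omega
  have hP := lemP S hN Y.card Y le_rfl hYcl
    (fun ⟨D, hD⟩ => hfree ⟨D, hD.res_mono hYL⟩) hcut h2
  exact ⟨v, hv, hfv, hcl, hinn, hoff, fun u hu hne => hP u (by
    rw [hY, mem_sdiff, mem_singleton]; exact ⟨hu, hne⟩)⟩

/-- A triangle of `F` with the base of the leaf. -/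
theorem tri_base {F : V → V → Prop} {f : V → V} (S : Sys F f) {N : V → V → Prop}
    (hN : Alt F f N) {L : Finset V} {c : V} (hL : LeafP F f N L c)
    (hfree : ¬ ∃ D, Alt (res F L) f D) {a b : V} (ha : a ∈ L) (hb : b ∈ L) (hac : a ≠ c)
    (hbc : b ≠ c) (hab : N a b) (hcn : ∀ z, F c z → z = a ∨ z = b)
    (han : ∀ z, F a z → z = b ∨ z = c) (hbn : ∀ z, F b z → z = a ∨ z = c) : False := by
  have hs0 := F0_symm S hN.symm
  have hne : a ≠ b := fun h => S.irr b (hN.sub _ _ (h ▸ hab))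
  apply hfree
  refine ⟨fun u v => (F0 F N u v ∧ u ∈ L ∧ v ∈ L ∧ u ≠ c ∧ v ≠ c) ∨ (u = a ∧ v = b) ∨
    (u = b ∧ v = a), ?_, ?_, ?_, ?_, ?_⟩
  · rintro u v (⟨h1, h2, h3, h4, h5⟩ | ⟨rfl, rfl⟩ | ⟨rfl, rfl⟩)
    · exact Or.inl ⟨hs0 _ _ h1, h3, h2, h5, h4⟩
    · exact Or.inr (Or.inr ⟨rfl, rfl⟩)
    · exact Or.inr (Or.inl ⟨rfl, rfl⟩)
  · rintro u v (⟨h1, h2, h3, h4, h5⟩ | ⟨rfl, rfl⟩ | ⟨rfl, rfl⟩)
    · exact ⟨h1.1, h2, h3⟩
    · exact ⟨hN.sub _ _ hab, ha, hb⟩
    · exact ⟨S.symm _ _ (hN.sub _ _ hab), hb, ha⟩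
  · have hA : ∀ z, F0 F N a z → z ≠ c → False := by
      intro z hz hzc
      rcases han z hz.1 with rfl | rfl
      · exact hz.2 hab
      · exact hzc rfl
    have hB : ∀ z, F0 F N b z → z ≠ c → False := by
      intro z hz hzc
      rcases hbn z hz.1 with rfl | rfl
      · exact hz.2 (hN.symm _ _ hab)
      · exact hzc rfl
    rintro u v w (⟨h1, h2, h3, h4, h5⟩ | ⟨rfl, rfl⟩ | ⟨rfl, rfl⟩)
      (⟨k1, k2, k3, k4, k5⟩ | ⟨k, rfl⟩ | ⟨k, rfl⟩)
    · exact F0_uniq S hN (hL.on u h2 h4) h1 k1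
    · subst k; exact (hA _ h1 h5).elim
    · subst k; exact (hB _ h1 h5).elim
    · exact (hA _ k1 k5).elim
    · rfl
    · exact absurd k hne
    · exact (hB _ k1 k5).elim
    · exact absurd k.symm hne
    · rfl
  · have main : ∀ u ∈ L, u ≠ c → ∃ w, (F0 F N (f u) w ∧ f u ∈ L ∧ w ∈ L ∧ f u ≠ c ∧ w ≠ c) ∨
        (f u = a ∧ w = b) ∨ (f u = b ∧ w = a) := by
      intro u hu huc
      have hfu := hL.clos u hu huc
      have hfuc : f u ≠ c := by
        intro he
        apply hL.out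
        rw [← he, S.inv]
        exact hu
      by_cases h1 : f u = a
      · exact ⟨b, Or.inr (Or.inl ⟨h1, rfl⟩)⟩
      by_cases h2 : f u = b
      · exact ⟨a, Or.inr (Or.inr ⟨h2, rfl⟩)⟩
      obtain ⟨z, hz⟩ := F0_ex S hN (f u)
      refine ⟨z, Or.inl ⟨hz, hfu, hL.inn _ hfu _ hz, hfuc, ?_⟩⟩
      rintro rfl
      rcases hcn _ (S.symm _ _ hz.1) with h | h
      · exact h1 h
      · exact h2 h
    rintro u v (⟨h1, h2, h3, h4, h5⟩ | ⟨rfl, rfl⟩ | ⟨rfl, rfl⟩)
    · exact main u h2 h4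
    · exact main u ha hac
    · exact main u hb hbc
  · exact ⟨a, b, Or.inr (Or.inl ⟨rfl, rfl⟩)⟩

/-- No triangle of `F` meets a leaf. -/
theorem no_tri {F : V → V → Prop} {f : V → V} (S : Sys F f) {N : V → V → Prop}
    (hN : Alt F f N) {L : Finset V} {v : V} (hL : LeafP F f N L v)
    (hfree : ¬ ∃ D, Alt (res F L) f D) {a b c : V} (ha : a ∈ L) (hab : F a b) (hac : F a c)
    (hbc : F b c) : False := by
  have hn2 : ∀ {x y z : V}, F x y → F x z → y ≠ z → ∀ t, F x t → t = y ∨ t = z := by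
    intro x y z h1 h2 h3 t ht
    by_contra hcon
    rw [not_or] at hcon
    have h4 : ({(x, y), (x, z), (x, t)} : Finset (V × V)).card = 3 := by
      rw [card_eq_three]
      refine ⟨_, _, _, ?_, ?_, ?_, rfl⟩
      · intro he; exact h3 (Prod.mk.inj he).2
      · intro he; exact hcon.1 (Prod.mk.inj he).2.symm
      · intro he; exact hcon.2 (Prod.mk.inj he).2.symm
    have h5 : ({(x, y), (x, z), (x, t)} : Finset (V × V)) ⊆
        (({x} : Finset V) ×ˢ univ).filter fun p => F p.1 p.2 := by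
      intro p hp
      simp only [mem_insert, mem_singleton] at hp
      rw [mem_filter, mem_product, mem_singleton]
      rcases hp with rfl | rfl | rfl
      · exact ⟨⟨rfl, mem_univ _⟩, h1⟩
      · exact ⟨⟨rfl, mem_univ _⟩, h2⟩
      · exact ⟨⟨rfl, mem_univ _⟩, ht⟩
    have h6 := card_le_card h5
    rw [← ct_eq_card, S.deg, h4] at h6
    omega
  have nab : a ≠ b := fun h => S.irr b (h ▸ hab)
  have nac : a ≠ c := fun h => S.irr c (h ▸ hac)
  have nbc : b ≠ c := fun h => S.irr c (h ▸ hbc)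
  have hba := S.symm _ _ hab
  have hca := S.symm _ _ hac
  have hcb := S.symm _ _ hbc
  have an := hn2 hab hac nbc
  have bn := hn2 hba hbc nac
  have cn := hn2 hca hcb nab
  -- all three are in `L`
  have hbL : b ∈ L := by
    by_cases h : N a b
    · have h1 : F0 F N a c := ⟨hac, fun h' => nbc (hN.uniq _ _ _ h h')⟩
      have h2 := hL.inn a ha c h1
      exact hL.inn c h2 b ⟨hcb, fun h' => nac (hN.uniq _ _ _ (hN.symm _ _ h) (hN.symm _ _ h'))⟩
    · exact hL.inn a ha b ⟨hab, h⟩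
  have hcL : c ∈ L := by
    by_cases h : N a c
    · exact hL.inn b hbL c ⟨hbc, fun h' =>
        nab (hN.uniq _ _ _ (hN.symm _ _ h) (hN.symm _ _ h'))⟩
    · exact hL.inn a ha c ⟨hac, h⟩
  -- two of them are matched by `N`
  have hNs : ∀ x y z : V, (∀ t, F x t → t = y ∨ t = z) → (∃ w, N x w) → N x y ∨ N x z := by
    rintro x y z h ⟨w, hw⟩
    rcases h w (hN.sub _ _ hw) with rfl | rfl
    · exact Or.inl hw
    · exact Or.inr hw
  by_cases hva : v = a
  · subst hva
    have h1 := hNs b v c bn (hL.on b hbL nab.symm)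
    rcases h1 with h1 | h1
    · exact hL.off ⟨b, hN.symm _ _ h1⟩
    · refine tri_base S hN hL hfree hbL hcL nab.symm nac.symm h1 an ?_ ?_
      · intro z hz; exact (bn z hz).symm
      · intro z hz; exact (cn z hz).symm
  by_cases hvb : v = b
  · subst hvb
    have h1 := hNs a v c an (hL.on a ha nab)
    rcases h1 with h1 | h1
    · exact hL.off ⟨a, hN.symm _ _ h1⟩
    · refine tri_base S hN hL hfree ha hcL nab nbc.symm h1 bn ?_ ?_
      · intro z hz; exact (an z hz).symm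
      · intro z hz; exact cn z hz
  by_cases hvc : v = c
  · subst hvc
    have h1 := hNs a b v an (hL.on a ha nac)
    rcases h1 with h1 | h1
    · exact tri_base S hN hL hfree ha hbL nac nbc h1 cn an bn
    · exact hL.off ⟨a, hN.symm _ _ h1⟩
  -- three matched vertices in a triangle
  have h1 := hNs a b c an (hL.on a ha (Ne.symm hva))
  have h2 := hNs b a c bn (hL.on b hbL (Ne.symm hvb))
  have h3 := hNs c a b cn (hL.on c hcL (Ne.symm hvc))
  rcases h1 with h1 | h1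
  · rcases h3 with h3 | h3
    · exact nbc (hN.uniq _ _ _ h1 (hN.symm _ _ h3))
    · exact nac (hN.uniq _ _ _ (hN.symm _ _ h1) (hN.symm _ _ h3))
  · rcases h2 with h2 | h2
    · exact nbc (hN.uniq _ _ _ (hN.symm _ _ h2) h1)
    · exact nab (hN.uniq _ _ _ (hN.symm _ _ h1) (hN.symm _ _ h2))

/-- The conclusion for one leaf. -/
structure Odd' (F : V → V → Prop) (f : V → V) (L : Finset V) : Prop where
  blo : ∃ X m x, Blo (res F L) f X m x ∧ ∀ k ≤ m, f (x k) ∈ L
  tri : ∀ a b c, a ∈ L → F a b → F a c → F b c → False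

theorem odd_of_leaf {F : V → V → Prop} {f : V → V} (S : Sys F f) {N : V → V → Prop}
    (hN : Alt F f N) {L : Finset V} {v : V} (hL : LeafP F f N L v)
    (hfree : ¬ ∃ D, Alt (res F L) f D) : Odd' F f L := by
  refine ⟨?_, fun a b c => no_tri S hN hL hfree⟩
  obtain ⟨m, x, hx⟩ := closing (E := res F L) (f := f)
    (fun u v h => ⟨S.symm _ _ h.1, h.2.2, h.2.1⟩) (fun v h => S.irr v h.1) S.inv S.ne
    (univ.filter fun a => f a ∈ L) (f v) (mem_filter.2 ⟨mem_univ _, by rw [S.inv]; exact hL.mem⟩)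
    (by
      intro a ha
      rw [mem_filter] at ha
      obtain ⟨z, hz⟩ := F0_ex S hN (f a)
      have hzL := hL.inn _ ha.2 z hz
      refine ⟨z, ⟨hz.1, ha.2, hzL⟩, ?_⟩
      by_cases hzv : z = v
      · right; rw [hzv, S.inv]
      · left
        exact mem_filter.2 ⟨mem_univ _, hL.clos z hzL hzv⟩) hfree
  exact ⟨_, m, x, hx, fun k hk => (mem_filter.1 (hx.mem k hk)).2⟩

/-- A minimal leaf. -/
theorem leaf_min {F : V → V → Prop} {f : V → V} (S : Sys F f) {N : V → V → Prop}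
    (hN : Alt F f N) (B : Finset V) (hB : B.Nonempty) (h1 : ct (GN F f N) B Bᶜ ≤ 1) :
    ∃ L, L ⊆ B ∧ L.Nonempty ∧ TEC (GN F f N) L ∧ ct (GN F f N) L Lᶜ ≤ 1 := by
  have hs := GN_symm S hN.symm
  obtain ⟨L, hL, hmin⟩ := exists_min_image
    (univ.filter fun L : Finset V => L ⊆ B ∧ L.Nonempty ∧ ct (GN F f N) L Lᶜ ≤ 1) Finset.card
    ⟨B, mem_filter.2 ⟨mem_univ _, Subset.refl _, hB, h1⟩⟩
  rw [mem_filter] at hL
  obtain ⟨-, hLB, hLn, hL1⟩ := hL
  refine ⟨L, hLB, hLn, ?_, hL1⟩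
  intro A hA hAn hAne
  by_contra hcon
  have hA' : (L \ A).Nonempty := by
    rw [sdiff_nonempty]
    exact fun h => hAne (Subset.antisymm hA h)
  have e1 : Aᶜ = (L \ A) ∪ Lᶜ := by
    ext z
    simp only [mem_compl, mem_union, mem_sdiff]
    constructor
    · intro h
      by_cases hz : z ∈ L
      · exact Or.inl ⟨hz, h⟩
      · exact Or.inr hz
    · rintro (h | h)
      · exact h.2
      · exact fun h' => h (hA h')
  have e2 : (L \ A)ᶜ = A ∪ Lᶜ := by
    ext z
    simp only [mem_compl, mem_union, mem_sdiff]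
    constructor
    · intro h
      by_cases hz : z ∈ A
      · exact Or.inl hz
      · exact Or.inr fun h' => h ⟨h', hz⟩
    · rintro (h | h)
      · exact fun h' => h'.2 h
      · exact fun h' => h h'.1
  have hd1 : Disjoint (L \ A) Lᶜ := disjoint_of_subset_left sdiff_subset disjoint_compl_right
  have hd2 : Disjoint A Lᶜ := disjoint_of_subset_left hA disjoint_compl_right
  have e3 := ct_union_right (E := GN F f N) A hd1
  have e4 := ct_union_right (E := GN F f N) (L \ A) hd2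
  rw [← e1] at e3
  rw [← e2, ct_comm hs (L \ A) A] at e4
  have e5 : ct (GN F f N) A Lᶜ + ct (GN F f N) (L \ A) Lᶜ = ct (GN F f N) L Lᶜ := by
    rw [← ct_union_left disjoint_sdiff, union_sdiff_of_subset hA]
  have hc1 : ¬ ct (GN F f N) A Aᶜ ≤ 1 := by
    intro h
    have h3 := hmin A (mem_filter.2 ⟨mem_univ _, hA.trans hLB, hAn, h⟩)
    have h4 := card_lt_card (hA.ssubset_of_ne hAne)
    omega
  have hc2 : ¬ ct (GN F f N) (L \ A) (L \ A)ᶜ ≤ 1 := by
    intro h
    have h3 := hmin (L \ A) (mem_filter.2 ⟨mem_univ _, sdiff_subset.trans hLB, hA', h⟩)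
    have h4 : (L \ A) ⊂ L := by
      refine ⟨sdiff_subset, fun hsub => ?_⟩
      obtain ⟨a, ha⟩ := hAn
      exact (mem_sdiff.1 (hsub (hA ha))).2 ha
    have h5 := card_lt_card h4
    omega
  omega

/-- The theorem for a 2-factor. -/
theorem spanning {F : V → V → Prop} {f : V → V} (S : Sys F f)
    (h2 : TEC (GN F f fun _ _ => False) univ) (hc : ∀ N, Alt F f N → ¬ TEC (GN F f N) univ)
    (P0 : Finset V) (hP0 : P0.Nonempty) (hP1 : ∀ N, Alt F f N → TEC (GN F f N) P0) :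
    ∃ L1 L2 : Finset V, Disjoint L1 L2 ∧ Disjoint L1 P0 ∧ Odd' F f L1 ∧ Odd' F f L2 := by
  obtain ⟨ρ, hρ⟩ := hP0
  haveI : Nonempty V := ⟨ρ⟩
  obtain ⟨N0, hN0⟩ := alt_exists S h2
  obtain ⟨N, B, hN, hBn, hBd, hB1, hBf⟩ := lemA S h2 hc P0 ⟨ρ, hρ⟩ N0 hN0 (hP1 N0 hN0)
  obtain ⟨L, hLB, hLn, hLT, hL1⟩ := leaf_min S hN B hBn hB1
  have hLf : ¬ ∃ D, Alt (res F L) f D := fun ⟨D, hD⟩ => hBf ⟨D, hD.res_mono hLB⟩
  obtain ⟨v, hv⟩ := leaf S hN L hLn hLT hL1 hLf
  obtain ⟨N', B', hN', hBn', hBd', hB1', hBf'⟩ := lemA S h2 hc L hLn N hN hLT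
  obtain ⟨L', hLB', hLn', hLT', hL1'⟩ := leaf_min S hN' B' hBn' hB1'
  have hLf' : ¬ ∃ D, Alt (res F L') f D := fun ⟨D, hD⟩ => hBf' ⟨D, hD.res_mono hLB'⟩
  obtain ⟨v', hv'⟩ := leaf S hN' L' hLn' hLT' hL1' hLf'
  exact ⟨L, L', (disjoint_of_subset_left hLB' hBd').symm, disjoint_of_subset_left hLB hBd,
    odd_of_leaf S hN hv hLf, odd_of_leaf S hN' hv' hLf'⟩

end Pool.Agent.H66.GD
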