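import Pool.Agent.H66.GD.Ext

/-!
# A leaf without alternating circuits
-/

namespace Pool.Agent.H66.GD

open Finset
open scoped Classical

variable {V : Type*} [Fintype V]

theorem lemA {F : V → V → Prop} {f : V → V} (S : Sys F f)
    (h2 : TEC (GN F f fun _ _ => False) univ) (hc : ∀ N, Alt F f N → ¬ TEC (GN F f N) univ)
    (P0 : Finset V) (hP0 : P0.Nonempty) (N0 : V → V → Prop) (hN0 : Alt F f N0)
    (hT0 : TEC (GN F f N0) P0) :
    ∃ N B, Alt F f N ∧ B.Nonempty ∧ Disjoint B P0 ∧ ct (GN F f N) B Bᶜ ≤ 1 ∧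
      ¬ ∃ D, Alt (res F B) f D := by
  -- a maximal two-edge-connected set
  obtain ⟨K, hK, hKmax⟩ := exists_max_image
    (univ.filter fun K : Finset V => P0 ⊆ K ∧ ∃ N, Alt F f N ∧ TEC (GN F f N) K) Finset.card
    ⟨P0, mem_filter.2 ⟨mem_univ _, Subset.refl _, N0, hN0, hT0⟩⟩
  rw [mem_filter] at hK
  obtain ⟨-, hPK, N, hN, hTK⟩ := hK
  have hKn : K.Nonempty := hP0.mono hPK
  have hext : ∀ N', Alt F f N' → TEC (GN F f N') K → ∀ P, Disjoint K P → CC (GN F f N') P →
      ct (GN F f N') K P ≤ 1 := by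
    intro N' hN' hT' P hd hcc
    by_contra hcon
    obtain ⟨K', h3, -, h4⟩ := tec_ext (GN_symm S hN'.symm) hT' P.card P le_rfl hd hcc (by omega)
    have h5 := hKmax K' (mem_filter.2 ⟨mem_univ _, hPK.trans h3.1, N', hN', h4⟩)
    have h6 := card_lt_card h3
    omega
  set R := Kᶜ with hR
  have hRK : Disjoint K R := disjoint_compl_right
  have hKne : K ≠ univ := by
    rintro he
    exact hc N hN (he ▸ hTK)
  -- components
  have hcomp : ∀ N', Alt F f N' → TEC (GN F f N') K → ∀ P, P ⊆ R → CC (GN F f N') P →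
      ct (GN F f N') P (R \ P) = 0 → ct (GN F f N') P Pᶜ ≤ 1 := by
    intro N' hN' hT' P hPR hcc h0
    have hs := GN_symm S hN'.symm
    have e1 : Pᶜ = K ∪ (R \ P) := by
      ext z
      simp only [hR, mem_compl, mem_union, mem_sdiff]
      constructor
      · intro h
        by_cases hz : z ∈ K
        · exact Or.inl hz
        · exact Or.inr ⟨hz, h⟩
      · rintro (h | h)
        · intro hzP
          have := hPR hzP
          rw [hR, mem_compl] at this
          exact this h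
        · exact h.2
    rw [e1, ct_union_right _ (disjoint_of_subset_right sdiff_subset hRK), h0, ct_comm hs P K]
    exact hext N' hN' hT' P (disjoint_of_subset_right hPR hRK) hcc
  -- restricting to an alternating circuit off `K`
  have hTD : ∀ B ⊆ R, ∀ D, Alt (res F B) f D → TEC (GN F f D) K := by
    intro B hB D hD
    refine hTK.mono fun a ha b _ h => ?_
    rcases h with h | h
    · exact Or.inl h
    · refine Or.inr ⟨h.1, fun hab => ?_⟩
      have := hB (hD.sub _ _ hab).2.1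
      rw [hR, mem_compl] at this
      exact this ha
  have hPd : ∀ P ⊆ R, Disjoint P P0 := fun P hP =>
    (disjoint_of_subset_right hP (disjoint_of_subset_left hPK hRK)).symm
  have hRn : R.Nonempty := by
    rw [hR, ← Finset.compl_ne_univ_iff_nonempty, compl_compl]
    exact hKne
  by_cases hI : ∃ k ∈ K, ∃ x ∈ R, F k x
  · -- the complement of `K` has no alternating circuit
    have hRfree : ¬ ∃ D, Alt (res F R) f D := by
      rintro ⟨D, hD⟩
      obtain ⟨k, hk, x, hx, hkx⟩ := hI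
      have hD' := hD.of_res
      have hsD := GN_symm S hD'.symm
      have hT' := hTD R (Subset.refl _) D hD
      obtain ⟨P, hPR, hxP, hcc, h0⟩ := comp_exists hsD R x hx
      have h1 := hcomp D hD' hT' P hPR hcc h0
      have hkP : k ∈ Pᶜ := by
        rw [mem_compl]
        intro h
        have := hPR h
        rw [hR, mem_compl] at this
        exact this hk
      have hxk : F x k ∧ ¬ D x k := by
        refine ⟨S.symm _ _ hkx, fun h => ?_⟩
        have := (hD.sub _ _ h).2.2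
        rw [hR, mem_compl] at this
        exact this hk
      have hcl : ∀ u ∈ P, f u ∈ P := by
        intro u hu
        by_contra hfu
        obtain ⟨e1, e2⟩ := ct_le_one h1 hu (mem_compl.2 hfu) (Or.inl rfl) hxP hkP (Or.inr hxk)
        rw [← e1, ← e2] at hxk
        exact S.nF u hxk.1
      have h3 := par S hD' P hcl
      have h4 : ct (fun a b => F a b ∧ ¬ D a b) P Pᶜ ≤ ct (GN F f D) P Pᶜ :=
        ct_mono (Subset.refl _) (Subset.refl _) fun a _ b _ h => Or.inr h
      have h5 : 1 ≤ ct (fun a b => F a b ∧ ¬ D a b) P Pᶜ := ct_pos.2 ⟨x, hxP, k, hkP, hxk⟩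
      have h6 : ct (fun a b => F a b ∧ ¬ D a b) P Pᶜ = 1 := by omega
      rw [h6] at h3
      exact absurd h3 (by decide)
    obtain ⟨r, hr⟩ := hRn
    obtain ⟨P, hPR, hrP, hcc, h0⟩ := comp_exists (GN_symm S hN.symm) R r hr
    exact ⟨N, P, hN, ⟨r, hrP⟩, hPd P hPR, hcomp N hN hTK P hPR hcc h0,
      fun ⟨D, hD⟩ => hRfree ⟨D, hD.res_mono hPR⟩⟩
  · push Not at hI
    -- two edges `k -- f k` between `K` and `R`
    have h3 : 2 ≤ ct (GN F f fun _ _ => False) K R := by
      have := h2 K (subset_univ _) hKn hKne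
      rwa [← compl_eq_univ_sdiff] at this
    have hcut : ∀ q ∈ (K ×ˢ R).filter fun q => GN F f (fun _ _ => False) q.1 q.2,
        q.1 ∈ K ∧ q.2 ∈ R ∧ q.2 = f q.1 := by
      intro q hq
      rw [mem_filter, mem_product] at hq
      refine ⟨hq.1.1, hq.1.2, ?_⟩
      rcases hq.2 with h | h
      · exact h
      · exact absurd h.1 (hI _ hq.1.1 _ hq.1.2)
    rw [ct_eq_card] at h3
    obtain ⟨q1, hq1, q2, hq2, hq12⟩ := one_lt_card.1 (show 1 < _ from h3)
    obtain ⟨hq1K, hq1R, hq1f⟩ := hcut q1 hq1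
    obtain ⟨hq2K, hq2R, hq2f⟩ := hcut q2 hq2
    have hne : q1.2 ≠ q2.2 := by
      intro he
      apply hq12
      refine Prod.ext ?_ he
      rw [← S.inv q1.1, ← S.inv q2.1, ← hq1f, ← hq2f, he]
    -- the maximal component
    have hcand : ∀ N', Alt F f N' → TEC (GN F f N') K → ∀ P, P ⊆ R → CC (GN F f N') P →
        ct (GN F f N') P (R \ P) = 0 → 1 ≤ ct (GN F f N') K P →
        P ∈ univ.filter fun P : Finset V => ∃ N', Alt F f N' ∧ TEC (GN F f N') K ∧ P ⊆ R ∧
          CC (GN F f N') P ∧ ct (GN F f N') P (R \ P) = 0 ∧ 1 ≤ ct (GN F f N') K P :=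
      fun N' a b P c d e g => mem_filter.2 ⟨mem_univ _, N', a, b, c, d, e, g⟩
    have hMe : ∀ (N' : V → V → Prop) (q : V × V), q.1 ∈ K → q.2 = f q.1 → ∀ P : Finset V,
        q.2 ∈ P → 1 ≤ ct (GN F f N') K P := fun N' q h4 h5 P h6 =>
      ct_pos.2 ⟨q.1, h4, q.2, h6, Or.inl h5⟩
    obtain ⟨P1, hP1R, hq1P, hcc1, h01⟩ := comp_exists (GN_symm S hN.symm) R q1.2 hq1R
    obtain ⟨P, hP, hPmax⟩ := exists_max_image _ Finset.card
      ⟨P1, hcand N hN hTK P1 hP1R hcc1 h01 (hMe N q1 hq1K hq1f P1 hq1P)⟩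
    rw [mem_filter] at hP
    obtain ⟨-, N1, hN1, hT1, hPR, hccP, h0P, hP1⟩ := hP
    have hsN1 := GN_symm S hN1.symm
    have hPle := hext N1 hN1 hT1 P (disjoint_of_subset_right hPR hRK) hccP
    -- a vertex off `P`
    have hx : ∃ q : V × V, q.1 ∈ K ∧ q.2 ∈ R ∧ q.2 = f q.1 ∧ q.2 ∉ P := by
      by_cases h4 : q1.2 ∈ P
      · refine ⟨q2, hq2K, hq2R, hq2f, fun h5 => ?_⟩
        obtain ⟨-, e⟩ := ct_le_one hPle hq1K h4 (Or.inl hq1f) hq2K h5 (Or.inl hq2f)
        exact hne e
      · exact ⟨q1, hq1K, hq1R, hq1f, h4⟩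
    obtain ⟨q, hqK, hqR, hqf, hqP⟩ := hx
    obtain ⟨B, hBR, hqB, hccB, h0B⟩ := comp_exists hsN1 R q.2 hqR
    have hBP : Disjoint B P := by
      rw [disjoint_left]
      intro z hzB hzP
      by_cases he : B ∩ P = B
      · exact hqP ((he ▸ inter_subset_right : B ⊆ P) hqB)
      · have h5 := hccB (B ∩ P) inter_subset_left ⟨z, mem_inter.2 ⟨hzB, hzP⟩⟩ he
        have h6 : ct (GN F f N1) (B ∩ P) (B \ (B ∩ P)) ≤ ct (GN F f N1) P (R \ P) := by
          refine ct_mono inter_subset_right ?_ fun _ _ _ _ h => h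
          intro b hb
          rw [mem_sdiff, mem_inter, not_and] at hb
          exact mem_sdiff.2 ⟨hBR hb.1, hb.2 hb.1⟩
        omega
    refine ⟨N1, B, hN1, ⟨_, hqB⟩, hPd B hBR, hcomp N1 hN1 hT1 B hBR hccB h0B, ?_⟩
    rintro ⟨D, hD⟩
    have hD' := hD.of_res
    have hTD' := hTD B hBR D hD
    have hsD := GN_symm S hD'.symm
    -- edges at `P` are not in `D`
    have hPD : ∀ a ∈ P, ∀ b, ¬ D a b := fun a ha b hab =>
      disjoint_left.1 hBP (hD.sub _ _ hab).2.1 ha
    obtain ⟨k, hk, z, hz, hkz⟩ := ct_pos.1 hP1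
    obtain ⟨P', hP'R, hzP', hcc', h0'⟩ := comp_exists hsD R z (hPR hz)
    have hkz' : GN F f D k z := by
      rcases hkz with h | h
      · exact Or.inl h
      · exact Or.inr ⟨h.1, fun h' => hPD z hz k (hD'.symm _ _ h')⟩
    have hsub : P ⊆ P' := by
      by_contra hns
      have he : P ∩ P' ≠ P := fun he => hns (he ▸ inter_subset_right)
      have h5 := hccP (P ∩ P') inter_subset_left ⟨z, mem_inter.2 ⟨hz, hzP'⟩⟩ he
      have h6 : ct (GN F f N1) (P ∩ P') (P \ (P ∩ P')) ≤ ct (GN F f D) P' (R \ P') := by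
        refine ct_mono inter_subset_right ?_ fun a ha b _ h => ?_
        · intro b hb
          rw [mem_sdiff, mem_inter, not_and] at hb
          exact mem_sdiff.2 ⟨hPR hb.1, hb.2 hb.1⟩
        · rcases h with h | h
          · exact Or.inl h
          · exact Or.inr ⟨h.1, hPD a (mem_inter.1 ha).1 b⟩
      omega
    have hle := hPmax P' (hcand D hD' hTD' P' hP'R hcc' h0'
      (ct_pos.2 ⟨k, hk, z, hzP', hkz'⟩))
    have heq : P = P' := eq_of_subset_of_card_le hsub hle
    have h7 := hcomp D hD' hTD' P' hP'R hcc' h0'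
    rw [← heq] at h7
    have h8 := h2 P (subset_univ _) ⟨z, hz⟩ (by
      intro he
      have h9 := hPR (he ▸ mem_univ k : k ∈ P)
      rw [hR, mem_compl] at h9
      exact h9 hk)
    rw [← compl_eq_univ_sdiff] at h8
    have h9 : ct (GN F f fun _ _ => False) P Pᶜ ≤ ct (GN F f D) P Pᶜ := by
      refine ct_mono (Subset.refl _) (Subset.refl _) fun a ha b _ h => ?_
      rcases h with h | h
      · exact Or.inl h
      · exact Or.inr ⟨h.1, hPD a ha b⟩
    omega

end Pool.Agent.H66.GD
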