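import Pool.Agent.H66.GD.Leaf
import Pool.Agent.H66.GD.Defs

/-!
# From weighted cubic graphs to 2-factors
-/

namespace Pool.Agent.H66.GD

open Finset
open scoped Classical

variable {V : Type*} [Fintype V]

/-- The edges of weight one. -/
def W1 (G : SimpleGraph V) (w : Sym2 V → ℕ) (u v : V) : Prop := G.Adj u v ∧ w s(u, v) = 1

/-- The edges of weight two. -/
def W2 (G : SimpleGraph V) (w : Sym2 V → ℕ) (u v : V) : Prop := G.Adj u v ∧ w s(u, v) = 2

theorem W1_symm {G : SimpleGraph V} {w : Sym2 V → ℕ} {u v : V} (h : W1 G w u v) :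
    W1 G w v u := ⟨h.1.symm, by rw [Sym2.eq_swap]; exact h.2⟩

theorem W2_symm {G : SimpleGraph V} {w : Sym2 V → ℕ} {u v : V} (h : W2 G w u v) :
    W2 G w v u := ⟨h.1.symm, by rw [Sym2.eq_swap]; exact h.2⟩

theorem W12 {G : SimpleGraph V} {w : Sym2 V → ℕ} {u v : V} (h : W1 G w u v) (h' : W2 G w u v) :
    False := by
  have h1 := h.2
  have h2 := h'.2
  omega

theorem adj_cases {G : SimpleGraph V} {w : Sym2 V → ℕ} (hw : IsWeight G w) {u v : V}
    (h : G.Adj u v) : W1 G w u v ∨ W2 G w u v := by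
  rcases hw.1 s(u, v) (by rwa [SimpleGraph.mem_edgeSet]) with h1 | h1
  · exact Or.inl ⟨h, h1⟩
  · exact Or.inr ⟨h, h1⟩

/-- The two types of vertices. -/
theorem vertex_type {G : SimpleGraph V} {w : Sym2 V → ℕ} (hG : Cubic G) (hw : IsWeight G w)
    (v : V) :
    ((∀ u, ¬ W1 G w v u) ∧ (univ.filter fun u => W2 G w v u).card = 3) ∨
    ((univ.filter fun u => W1 G w v u).card = 2 ∧ (univ.filter fun u => W2 G w v u).card = 1) := by
  have h1 : (univ.filter fun u => W1 G w v u).card + (univ.filter fun u => W2 G w v u).card = 3 := by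
    rw [← hG v, ← Set.ncard_coe_finset, ← Set.ncard_coe_finset, ← Set.ncard_union_eq]
    · congr 1
      ext u
      simp only [Set.mem_union, mem_coe, mem_filter, mem_univ, true_and,
        SimpleGraph.mem_neighborSet]
      constructor
      · rintro (h | h)
        · exact h.1
        · exact h.1
      · exact adj_cases hw
    · rw [Set.disjoint_left]
      intro u hu hu'
      simp only [mem_coe, mem_filter, mem_univ, true_and] at hu hu'
      exact W12 hu hu'
  have h2 : Even (univ.filter fun u => W1 G w v u).card := by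
    have h3 := hw.2 v
    rw [← Set.ncard_coe_finset]
    convert h3 using 2
    ext u
    simp only [mem_coe, mem_filter, mem_univ, true_and, Set.mem_setOf_eq]
    constructor
    · intro h
      exact ⟨h.1, by rw [h.2]; decide⟩
    · rintro ⟨h, h'⟩
      rcases adj_cases hw h with h1 | h1
      · exact h1
      · rw [h1.2] at h'
        exact absurd h' (by decide)
  rcases Nat.eq_zero_or_pos (univ.filter fun u => W1 G w v u).card with h3 | h3
  · left
    refine ⟨fun u hu => ?_, by omega⟩
    rw [card_eq_zero] at h3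
    have : u ∈ (univ.filter fun u => W1 G w v u) := mem_filter.2 ⟨mem_univ _, hu⟩
    rw [h3] at this
    exact absurd this (notMem_empty _)
  · right
    rw [Nat.even_iff] at h2
    omega

/-- A vertex with an edge of weight one has a unique edge of weight two. -/
theorem W2_uniq {G : SimpleGraph V} {w : Sym2 V → ℕ} (hG : Cubic G) (hw : IsWeight G w)
    {v u a b : V} (h : W1 G w v u) (ha : W2 G w v a) (hb : W2 G w v b) : a = b := by
  rcases vertex_type hG hw v with h1 | h1
  · exact absurd h (h1.1 u)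
  · obtain ⟨c, hc⟩ := card_eq_one.1 h1.2
    have h2 : a ∈ (univ.filter fun u => W2 G w v u) := mem_filter.2 ⟨mem_univ _, ha⟩
    have h3 : b ∈ (univ.filter fun u => W2 G w v u) := mem_filter.2 ⟨mem_univ _, hb⟩
    rw [hc, mem_singleton] at h2 h3
    rw [h2, h3]

/-- The darts of weight two. -/
abbrev Drt (G : SimpleGraph V) (w : Sym2 V → ℕ) := {p : V × V // W2 G w p.1 p.2}

/-- The reversal. -/
def rv {G : SimpleGraph V} {w : Sym2 V → ℕ} (p : Drt G w) : Drt G w :=
  ⟨(p.1.2, p.1.1), W2_symm p.2⟩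

/-- The adjacency of the blown up 2-factor. -/
def FD {G : SimpleGraph V} {w : Sym2 V → ℕ} (p q : Drt G w) : Prop :=
  p ≠ q ∧ (p.1.1 = q.1.1 ∨ W1 G w p.1.1 q.1.1)

theorem ct_single {W : Type*} [Fintype W] (E : W → W → Prop) (p : W) :
    ct E {p} univ = (univ.filter fun q => E p q).card := by
  unfold ct
  rw [sum_singleton, card_filter]

theorem dart_ex {G : SimpleGraph V} {w : Sym2 V → ℕ} (hG : Cubic G) (hw : IsWeight G w) (v : V) :
    ∃ p : Drt G w, p.1.1 = v := by
  have : 0 < (univ.filter fun u => W2 G w v u).card := by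
    rcases vertex_type hG hw v with h1 | h1 <;> omega
  obtain ⟨u, hu⟩ := card_pos.1 this
  exact ⟨⟨(v, u), (mem_filter.1 hu).2⟩, rfl⟩

theorem dart_uniq {G : SimpleGraph V} {w : Sym2 V → ℕ} (hG : Cubic G) (hw : IsWeight G w)
    {v u : V} (h : W1 G w v u) {p q : Drt G w} (hp : p.1.1 = v) (hq : q.1.1 = v) : p = q := by
  have h1 : p.1.2 = q.1.2 := by
    have a := p.2
    have b := q.2
    rw [hp] at a
    rw [hq] at b
    exact W2_uniq hG hw h a b
  exact Subtype.ext (Prod.ext (hp.trans hq.symm) h1)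

theorem sysD {G : SimpleGraph V} {w : Sym2 V → ℕ} (hG : Cubic G) (hw : IsWeight G w) :
    Sys (FD (G := G) (w := w)) rv := by
  refine ⟨?_, ?_, ?_, ?_, ?_, ?_⟩
  · rintro p q ⟨h1, h2 | h2⟩
    · exact ⟨h1.symm, Or.inl h2.symm⟩
    · exact ⟨h1.symm, Or.inr (W1_symm h2)⟩
  · intro p h; exact h.1 rfl
  · intro p
    rw [ct_single]
    rcases vertex_type hG hw p.1.1 with h1 | h1
    · -- three edges of weight two
      have h2 : (univ.filter fun q => FD p q).card =
          ((univ.filter fun u => W2 G w p.1.1 u).erase p.1.2).card := by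
        refine card_bij (fun q _ => q.1.2) ?_ ?_ ?_
        · intro q hq
          rw [mem_filter] at hq
          have h3 : p.1.1 = q.1.1 := by
            rcases hq.2.2 with h | h
            · exact h
            · exact absurd h (h1.1 _)
          rw [mem_erase, mem_filter]
          refine ⟨fun he => hq.2.1 (Subtype.ext (Prod.ext h3 he.symm)), mem_univ _, ?_⟩
          rw [h3]; exact q.2
        · intro q hq q' hq' he
          rw [mem_filter] at hq hq'
          have h3 : p.1.1 = q.1.1 := by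
            rcases hq.2.2 with h | h
            · exact h
            · exact absurd h (h1.1 _)
          have h4 : p.1.1 = q'.1.1 := by
            rcases hq'.2.2 with h | h
            · exact h
            · exact absurd h (h1.1 _)
          exact Subtype.ext (Prod.ext (h3.symm.trans h4) he)
        · intro u hu
          rw [mem_erase, mem_filter] at hu
          refine ⟨⟨(p.1.1, u), hu.2.2⟩, ?_, rfl⟩
          rw [mem_filter]
          refine ⟨mem_univ _, ?_, Or.inl rfl⟩
          intro he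
          apply hu.1
          rw [he]
      rw [h2, card_erase_of_mem (mem_filter.2 ⟨mem_univ _, p.2⟩), h1.2]
    · have hx : ∃ u, W1 G w p.1.1 u := by
        have : 0 < (univ.filter fun u => W1 G w p.1.1 u).card := by omega
        obtain ⟨u, hu⟩ := card_pos.1 this
        exact ⟨u, (mem_filter.1 hu).2⟩
      obtain ⟨u0, hu0⟩ := hx
      have hW : ∀ q : Drt G w, FD p q → W1 G w p.1.1 q.1.1 := by
        intro q hq
        rcases hq.2 with h | h
        · exact absurd (dart_uniq hG hw hu0 rfl h.symm) hq.1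
        · exact h
      have h2 : (univ.filter fun q => FD p q).card =
          (univ.filter fun u => W1 G w p.1.1 u).card := by
        refine card_bij (fun q _ => q.1.1) ?_ ?_ ?_
        · intro q hq
          rw [mem_filter] at hq ⊢
          exact ⟨mem_univ _, hW q hq.2⟩
        · intro q hq q' hq' he
          rw [mem_filter] at hq hq'
          exact dart_uniq hG hw (W1_symm (hW q hq.2)) rfl he.symm
        · intro u hu
          rw [mem_filter] at hu
          obtain ⟨q, hq⟩ := dart_ex hG hw u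
          refine ⟨q, ?_, hq⟩
          rw [mem_filter]
          refine ⟨mem_univ _, ?_, Or.inr (hq ▸ hu.2)⟩
          rintro rfl
          rw [hq] at hu
          exact G.loopless.irrefl _ hu.2.1
      rw [h2, h1.1]
  · intro p; rfl
  · intro p he
    have h1 : p.1.2 = p.1.1 := congrArg (fun q => q.1.1) he
    have h2 := p.2.1
    rw [h1] at h2
    exact G.loopless.irrefl _ h2
  · rintro p ⟨-, h | h⟩
    · have h2 := p.2.1
      change p.1.1 = p.1.2 at h
      rw [← h] at h2
      exact G.loopless.irrefl _ h2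
    · exact W12 h p.2

/-! ### Cuts -/

theorem tec_univ_iff {W : Type*} [Fintype W] {E : W → W → Prop} :
    TEC E univ ↔ ∀ A : Finset W, A.Nonempty → A ≠ univ → ∃ a b a' b', a ∈ A ∧ b ∉ A ∧ E a b ∧
      a' ∈ A ∧ b' ∉ A ∧ E a' b' ∧ (a, b) ≠ (a', b') := by
  constructor
  · intro h A hA hne
    have h2 := h A (subset_univ _) hA hne
    rw [ct_eq_card] at h2
    obtain ⟨x, hx, y, hy, hxy⟩ := one_lt_card.1 (show 1 < _ from h2)
    rw [mem_filter, mem_product, mem_sdiff] at hx hy
    exact ⟨x.1, x.2, y.1, y.2, hx.1.1, hx.1.2.2, hx.2, hy.1.1, hy.1.2.2, hy.2, hxy⟩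
  · intro h A _ hA hne
    obtain ⟨a, b, a', b', h1, h2, h3, h4, h5, h6, h7⟩ := h A hA hne
    exact two_le_ct h1 (mem_sdiff.2 ⟨mem_univ _, h2⟩) h3 h4 (mem_sdiff.2 ⟨mem_univ _, h5⟩) h6 h7

omit [Fintype V] in
theorem two_cross {G : SimpleGraph V} (hc : G.Connected) (hb : Bridgeless G) (A : Set V)
    {a b : V} (ha : a ∈ A) (hb' : b ∉ A) :
    ∃ x y x' y', x ∈ A ∧ y ∉ A ∧ G.Adj x y ∧ x' ∈ A ∧ y' ∉ A ∧ G.Adj x' y' ∧
      (x, y) ≠ (x', y') := by
  obtain ⟨p⟩ := hc.preconnected a b
  obtain ⟨d, -, hd1, hd2⟩ := p.exists_boundary_dart A ha hb'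
  have hnb := hb s(d.fst, d.snd) (by rw [SimpleGraph.mem_edgeSet]; exact d.adj)
  rw [SimpleGraph.isBridge_iff] at hnb
  have hr : (G \ SimpleGraph.fromEdgeSet {s(d.fst, d.snd)}).Reachable d.fst d.snd := by
    by_contra h
    exact hnb h
  obtain ⟨q⟩ := hr
  obtain ⟨e, -, he1, he2⟩ := q.exists_boundary_dart A hd1 hd2
  have hadj := e.adj
  rw [SimpleGraph.sdiff_adj] at hadj
  refine ⟨_, _, _, _, hd1, hd2, d.adj, he1, he2, hadj.1, ?_⟩
  intro heq
  apply hadj.2
  rw [SimpleGraph.fromEdgeSet_adj]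
  rw [Prod.mk.injEq] at heq
  refine ⟨?_, e.adj.ne⟩
  rw [Set.mem_singleton_iff, ← heq.1, ← heq.2]

theorem tecD {G : SimpleGraph V} {w : Sym2 V → ℕ} (hG : Cubic G) (hw : IsWeight G w)
    (hc : G.Connected) (hb : Bridgeless G) :
    TEC (GN (FD (G := G) (w := w)) rv fun _ _ => False) univ := by
  rw [tec_univ_iff]
  intro A hAn hAne
  have S := sysD hG hw
  have hAc : ∃ q, q ∉ A := by
    by_contra h
    push Not at h
    exact hAne (eq_univ_of_forall h)
  by_cases hsp : ∃ p ∈ A, ∃ q, q ∉ A ∧ p.1.1 = q.1.1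
  · -- a split triangle
    obtain ⟨p, hp, q, hq, hpq⟩ := hsp
    have hne : p ≠ q := fun h => hq (h ▸ hp)
    have h3 : (univ.filter fun u => W2 G w p.1.1 u).card = 3 ∧ ∀ u, ¬ W1 G w p.1.1 u := by
      rcases vertex_type hG hw p.1.1 with h1 | h1
      · exact ⟨h1.2, h1.1⟩
      · exfalso
        have : 0 < (univ.filter fun u => W1 G w p.1.1 u).card := by omega
        obtain ⟨u, hu⟩ := card_pos.1 this
        exact hne (dart_uniq hG hw (mem_filter.1 hu).2 rfl hpq.symm)
    have hr : ∃ r : Drt G w, r.1.1 = p.1.1 ∧ r ≠ p ∧ r ≠ q := by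
      by_contra hcon
      push Not at hcon
      have : (univ.filter fun u => W2 G w p.1.1 u) ⊆ {p.1.2, q.1.2} := by
        intro u hu
        rw [mem_insert, mem_singleton]
        by_cases hup : u = p.1.2
        · exact Or.inl hup
        · right
          have := hcon ⟨(p.1.1, u), (mem_filter.1 hu).2⟩ rfl (fun he => hup (by rw [← he]))
          rw [← this]
      have := card_le_card this
      have := card_le_two (a := p.1.2) (b := q.1.2)
      omega
    obtain ⟨r, hr1, hrp, hrq⟩ := hr
    have hFpq : FD p q := ⟨hne, Or.inl hpq⟩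
    have hFpr : FD p r := ⟨hrp.symm, Or.inl hr1.symm⟩
    have hFrq : FD r q := ⟨hrq, Or.inl (hr1.trans hpq)⟩
    by_cases hrA : r ∈ A
    · refine ⟨p, q, r, q, hp, hq, Or.inr ⟨hFpq, fun h => h⟩, hrA, hq,
        Or.inr ⟨hFrq, fun h => h⟩, ?_⟩
      intro he
      exact hrp (Prod.mk.inj he).1.symm
    · refine ⟨p, q, p, r, hp, hq, Or.inr ⟨hFpq, fun h => h⟩, hp, hrA,
        Or.inr ⟨hFpr, fun h => h⟩, ?_⟩
      intro he
      exact hrq (Prod.mk.inj he).2.symm
  · push Not at hsp
    obtain ⟨p0, hp0⟩ := hAn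
    obtain ⟨q0, hq0⟩ := hAc
    obtain ⟨x, y, x', y', h1, h2, h3, h4, h5, h6, h7⟩ := two_cross hc hb
      {v | ∃ p ∈ A, p.1.1 = v} (a := p0.1.1) (b := q0.1.1) ⟨p0, hp0, rfl⟩ (by
        rintro ⟨p, hp, hpq⟩
        exact hsp p hp q0 hq0 hpq)
    -- an edge gives a pair of darts
    have key : ∀ x y, x ∈ {v | ∃ p ∈ A, p.1.1 = v} → y ∉ {v | ∃ p ∈ A, p.1.1 = v} →
        G.Adj x y → ∃ p q : Drt G w, p ∈ A ∧ q ∉ A ∧ p.1.1 = x ∧ q.1.1 = y ∧
          GN FD rv (fun _ _ => False) p q := by
      intro x y hx hy hxy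
      obtain ⟨p, hp, hpx⟩ := hx
      rcases adj_cases hw hxy with h | h
      · obtain ⟨q, hq⟩ := dart_ex hG hw y
        have hqA : q ∉ A := fun hqA => hy ⟨q, hqA, hq⟩
        refine ⟨p, q, hp, hqA, hpx, hq, Or.inr ⟨⟨?_, Or.inr ?_⟩, fun h => h⟩⟩
        · rintro rfl; exact hqA hp
        · rw [hpx, hq]; exact h
      · set r : Drt G w := ⟨(x, y), h⟩ with hr
        have hrA : r ∈ A := by
          by_contra hrA
          exact hsp p hp r hrA hpx
        refine ⟨r, rv r, hrA, fun h' => hy ⟨rv r, h', rfl⟩, rfl, rfl, Or.inl rfl⟩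
    obtain ⟨p, q, a1, a2, a3, a4, a5⟩ := key x y h1 h2 h3
    obtain ⟨p', q', b1, b2, b3, b4, b5⟩ := key x' y' h4 h5 h6
    refine ⟨p, q, p', q', a1, a2, a5, b1, b2, b5, ?_⟩
    intro he
    apply h7
    rw [Prod.mk.injEq] at he ⊢
    exact ⟨by rw [← a3, ← b3, he.1], by rw [← a4, ← b4, he.2]⟩

/-! ### Removable circuits -/

/-- The graph of an alternating set. -/
def HG {G : SimpleGraph V} {w : Sym2 V → ℕ} (N : Drt G w → Drt G w → Prop) (x y : V) : Prop :=
  (∃ p q, N p q ∧ p.1.1 = x ∧ q.1.1 = y ∧ x ≠ y) ∨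
    ∃ p : Drt G w, p.1.1 = x ∧ p.1.2 = y ∧ ∃ q, N p q

theorem HG_symm {G : SimpleGraph V} {w : Sym2 V → ℕ} {N : Drt G w → Drt G w → Prop}
    (hN : Alt FD rv N) {x y : V} (h : HG N x y) : HG N y x := by
  rcases h with ⟨p, q, h1, h2, h3, h4⟩ | ⟨p, h1, h2, q, h3⟩
  · exact Or.inl ⟨q, p, hN.symm _ _ h1, h3, h2, h4.symm⟩
  · exact Or.inr ⟨rv p, h2, h1, hN.clos _ _ h3⟩

theorem HG_adj {G : SimpleGraph V} {w : Sym2 V → ℕ} {N : Drt G w → Drt G w → Prop}
    (hN : Alt FD rv N) {x y : V} (h : HG N x y) : G.Adj x y := by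
  rcases h with ⟨p, q, h1, h2, h3, h4⟩ | ⟨p, h1, h2, q, h3⟩
  · have h5 := (hN.sub _ _ h1).2
    rcases h5 with h5 | h5
    · rw [h2, h3] at h5
      exact absurd h5 h4
    · rw [h2, h3] at h5
      exact h5.1
  · have := p.2.1
    rwa [h1, h2] at this

theorem HG_deg {G : SimpleGraph V} {w : Sym2 V → ℕ} (hG : Cubic G) (hw : IsWeight G w)
    {N : Drt G w → Drt G w → Prop} (hN : Alt FD rv N) {x y : V} (h : HG N x y) :
    {z | HG N x z}.ncard = 2 := by
  have S := sysD hG hw
  -- a dart at `x` in the support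
  have hp : ∃ p q : Drt G w, N p q ∧ p.1.1 = x := by
    rcases h with ⟨p, q, h1, h2, _⟩ | ⟨p, h1, h2, q, h3⟩
    · exact ⟨p, q, h1, h2⟩
    · exact ⟨p, q, h3, h1⟩
  obtain ⟨p, q, hpq, hpx⟩ := hp
  have hFpq := hN.sub _ _ hpq
  rcases vertex_type hG hw x with h1 | h1
  · -- three edges of weight two
    have hsame : ∀ p q : Drt G w, N p q → p.1.1 = x → q.1.1 = x := by
      intro p q hpq hpx
      rcases (hN.sub _ _ hpq).2 with h | h
      · rw [← h, hpx]
      · rw [hpx] at h; exact absurd h (h1.1 _)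
    have hqx := hsame p q hpq hpx
    have hset : {z | HG N x z} = {p.1.2, q.1.2} := by
      ext z
      simp only [Set.mem_setOf_eq, Set.mem_insert_iff, Set.mem_singleton_iff]
      constructor
      · rintro (⟨p', q', h2, h3, h4, h5⟩ | ⟨p', h2, h3, q', h4⟩)
        · exact absurd (hsame p' q' h2 h3) (by rw [h4]; exact h5.symm)
        · -- `p'` is `p` or `q`
          by_contra hcon
          rw [not_or] at hcon
          have hp'p : p' ≠ p := by
            rintro rfl; exact hcon.1 h3.symm
          have hp'q : p' ≠ q := by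
            rintro rfl; exact hcon.2 h3.symm
          have hq'x := hsame p' q' h4 h2
          -- four darts at `x`
          have hq'p : q' ≠ p := by
            rintro rfl
            exact hp'q (hN.uniq _ _ _ (hN.symm _ _ h4) hpq)
          have hq'q : q' ≠ q := by
            rintro rfl
            exact hp'p (hN.uniq _ _ _ (hN.symm _ _ h4) (hN.symm _ _ hpq))
          have hp'q' : p' ≠ q' := (hN.sub _ _ h4).1
          have hpq' : p ≠ q := hFpq.1
          have h6 : ({p.1.2, q.1.2, p'.1.2, q'.1.2} : Finset V) ⊆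
              univ.filter fun u => W2 G w x u := by
            intro u hu
            simp only [mem_insert, mem_singleton] at hu
            rw [mem_filter]
            refine ⟨mem_univ _, ?_⟩
            rcases hu with rfl | rfl | rfl | rfl
            · have := p.2; rwa [hpx] at this
            · have := q.2; rwa [hqx] at this
            · have := p'.2; rwa [h2] at this
            · have := q'.2; rwa [hq'x] at this
          have hinj : ∀ a b : Drt G w, a.1.1 = x → b.1.1 = x → a ≠ b → a.1.2 ≠ b.1.2 :=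
            fun a b ha hb hab he => hab (Subtype.ext (Prod.ext (ha.trans hb.symm) he))
          have h7 : ({p.1.2, q.1.2, p'.1.2, q'.1.2} : Finset V).card = 4 := by
            rw [card_insert_of_notMem, card_insert_of_notMem, card_insert_of_notMem,
              card_singleton]
            · rw [mem_singleton]
              exact hinj _ _ h2 hq'x hp'q'
            · simp only [mem_insert, mem_singleton, not_or]
              exact ⟨hinj _ _ hqx h2 hp'q.symm, hinj _ _ hqx hq'x hq'q.symm⟩
            · simp only [mem_insert, mem_singleton, not_or]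
              exact ⟨hinj _ _ hpx hqx hpq', hinj _ _ hpx h2 hp'p.symm,
                hinj _ _ hpx hq'x hq'p.symm⟩
          have h8 := card_le_card h6
          rw [h7, h1.2] at h8
          omega
      · rintro (rfl | rfl)
        · exact Or.inr ⟨p, hpx, rfl, q, hpq⟩
        · exact Or.inr ⟨q, hqx, rfl, p, hN.symm _ _ hpq⟩
    rw [hset, Set.ncard_pair]
    intro he
    exact hFpq.1 (Subtype.ext (Prod.ext (hpx.trans hqx.symm) he))
  · have hx : ∃ u, W1 G w x u := by
      have : 0 < (univ.filter fun u => W1 G w x u).card := by omega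
      obtain ⟨u, hu⟩ := card_pos.1 this
      exact ⟨u, (mem_filter.1 hu).2⟩
    obtain ⟨u0, hu0⟩ := hx
    have hW : W1 G w x q.1.1 := by
      rcases hFpq.2 with h | h
      · exact absurd (dart_uniq hG hw hu0 hpx (h.symm.trans hpx)) hFpq.1
      · rwa [hpx] at h
    have hset : {z | HG N x z} = {p.1.2, q.1.1} := by
      ext z
      simp only [Set.mem_setOf_eq, Set.mem_insert_iff, Set.mem_singleton_iff]
      constructor
      · rintro (⟨p', q', h2, h3, h4, h5⟩ | ⟨p', h2, h3, q', h4⟩)
        · right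
          have := dart_uniq hG hw hu0 h3 hpx
          subst this
          rw [← h4, hN.uniq _ _ _ h2 hpq]
        · left
          have := dart_uniq hG hw hu0 h2 hpx
          subst this
          exact h3.symm
      · rintro (rfl | rfl)
        · exact Or.inr ⟨p, hpx, rfl, q, hpq⟩
        · exact Or.inl ⟨p, q, hpq, hpx, rfl, hW.1.ne⟩
    rw [hset, Set.ncard_pair]
    intro he
    have h2 := p.2
    rw [hpx, he] at h2
    exact W12 hW h2

end Pool.Agent.H66.GD
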